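import Pool.Agent.X306.AV.RD

/-!
# The abelian logarithms relative to an arbitrary motive: multiple zeta values, CM periods, ...

Let `A` be an abelian variety of dimension `g` over the field `ℚ̄` of algebraic numbers, let `P_r` (`r ∈ R`) be arbitrary
points of `A(ℚ̄)` with abelian logarithms `u_r ∈ ℂ^g = Lie A`, and let `l_j` (`j ∈ J`) be logarithms of algebraic numbers.
The 1-motive

  `M_1 = [ℤ^R → A] ⊕ [ℤ^J → 𝔾ₘ]`

has the periods: the periods and quasi-periods of `A`, the integrals `u_r`, `e_r` of the first and second kind from `0` to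
`P_r`, `2πi` and the `l_j` (`periodMatrix`). Let `M_0` be an ARBITRARY de Rham-Betti object over `ℚ̄`, for example the
realisation of any Nori motive, given by its period matrix `C₀` (rows: Betti side, columns: de Rham side). No relation
between the periods of `M_0` and those of `M_1` is assumed or excluded.

The motivic Galois group of `M_1` contains the group of the matrices `block 1 N 1 0` (`rowPart`) which replace the path from
`0` to `P_r` by its sum with `N_r ∈ H_1(A, ℂ)`, where the `N_r` satisfy all linear relations over `End A` which hold between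
the points `P_r` (Ribet, André, Bertrand, Jossen): the part of weight `-1` of the unipotent radical.

**Theorem.** Let `T` be a `ℚ̄`-subtorsor of `Iso(M_dR, M_B)` for `M = M_0 ⊕ M_1`, which contains the period matrix and whose
group (the matrices `x y⁻¹`, `x, y ∈ T`) is defined over `ℚ`; for example the de Rham-Betti torsor of `M`. Then `T` is stable
under the matrices `1 ⊕ block 1 N 1 0` of `rowPart`, in each of the following cases.

1. `H_1(A)` and `End(M_0)` are disjoint: every subobject of the de Rham-Betti object `End(M_0) ⊕ H_1(A)` is the sum of a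
subobject of `End(M_0)` and one of `H_1(A)` (equivalently no nonzero subquotient of `H_1(A)` is a subquotient of
`End(M_0)`).

2. `A` has no abelian subvariety of CM type, and the de Rham-Betti group of `M_0` is triangularizable over `ℂ` (it is enough
that it is contained in such a group). Examples: all mixed Tate motives over `ℚ̄`, with all multiple zeta values and all
values of polylogarithms at algebraic points as periods; all motives of CM type, for example those with products of
values of the Gamma function at rational numbers as periods; all iterated extensions of such motives.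

So the periods of `M_0` are not the reason for any de Rham-Betti relation of the abelian logarithms: the de Rham-Betti
classes on `M_0^{⊗a} ⊗ (M_0^∨)^{⊗b} ⊗ M_1^{⊗c} ⊗ (M_1^∨)^{⊗d}` are invariant under `rowPart`, as the period conjecture for
the Nori motive `M_0 ⊕ M_1` predicts: the motivic classes are so, because the motivic Galois group of `M_0 ⊕ M_1` contains
`1 ⊕ rowPart` in case 2 (this group is contained in the de Rham-Betti group of `M_0 ⊕ M_1` by the theorem, and the
de Rham-Betti group is contained in the motivic one). In particular the theorem determines a part of the motivic Galois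
group of `M_0 ⊕ M_1`.

For `M_0 = 0` case 1 is the statement on the part of weight `-1` in `OneMotivesUnipotentPart`; there the part of weight `-2`
is also treated, which in the relative situation depends on `M_0` (a logarithm `l_j` can be a period of `M_0`). For elliptic
curves without complex multiplication the relative theorem for the whole group is `EllipticOverArbitraryMotive`
(`MP_f11a48_ag`).

## The proof

Let `L` be the Lie algebra of the group of `T` (over `ℚ`). It contains all rational components of the logarithmic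
derivatives of the period matrix, and its projection `𝔤` to `End(M_1)` contains the whole Lie algebra `𝔲` of `rowPart`
(`Pool.Agent.X306.AV.Good.uA_mem`: Schneider-Lang, Lang's theorem on algebraic points, see `OneMotivesUnipotentPart`).

1. The elements `(y, Y) ∈ L` with `Y ∈ 𝔲` form a subobject of `End(M_0) ⊕ H_1(A)^R`; if `L ∩ (0 ⊕ 𝔲)` is smaller than `𝔲`,
one of the linear maps `H_1(A)^R → H_1(A)` over `End A ⊗ ℚ` which vanish on it gives a subobject of `End(M_0) ⊕ H_1(A)`
which is not a sum (`Pool.Agent.X306.AV.mem_kk_of_dj`).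

2. The part of `L` over the triangularizable Lie algebra still projects onto `𝔲`. If `A` has no CM part, `𝔲` is spanned by
the `[[ξ, ξ'], Y]` with `ξ, ξ' ∈ 𝔤`, `Y ∈ 𝔲` (`Good.span_br`; semisimplicity of `H_1(A)` and the theorem that the commutant
of `𝔤` is `End A ⊗ ℚ`). Lifting these brackets `m` times to `L` one gets lifts of `Y` whose first component is in the
`m`-th step of the filtration of the triangular matrices, so is zero (`Pool.Agent.X306.AV.mem_kk_of_tri`).
-/

set_option autoImplicit false

open Matrix Pool.Agent.Y102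

noncomputable section

namespace Pool.Agent.Results.MP_5d33ca_ag.AbelianOverArbitraryMotive

/-- The rows (Betti side) and columns (de Rham side) of the period matrix of `M_1`: the `2g` cycles of `A` and the paths from
`0` to the points `P_r`; the circle and the paths from `1` to the algebraic numbers. -/
abbrev Idx (g : ℕ) (R J : Type) : Type := (Fin (2 * g) ⊕ R) ⊕ (Unit ⊕ J)

variable {g : ℕ} {R : Type} [Fintype R] [DecidableEq R] {J : Type} [Fintype J] [DecidableEq J]

/-- The block diagonal matrix with the blocks `(X, 0; Y, 1)` and `(μ, 0; v, 1)`. -/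
def block (X : Matrix (Fin (2 * g)) (Fin (2 * g)) ℂ) (Y : Matrix R (Fin (2 * g)) ℂ) (μ : ℂ) (v : J → ℂ) :
    Matrix (Idx g R J) (Idx g R J) ℂ :=
  fromBlocks (fromBlocks X 0 Y 1) 0 0 (fromBlocks (Matrix.of fun _ _ => μ) 0 (Matrix.of fun j _ => v j) 1)

/-- The index set `Fin (2 * g)` of the de Rham basis: first the `g` differentials `d z_k` of the first kind, then the `g`
differentials `d (∂_k log θ₀)` of the second kind. -/
def split (g : ℕ) : Fin (2 * g) ≃ Fin g ⊕ Fin g := (finCongr (two_mul g)).trans finSumFinEquiv.symm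

variable (A : AbVar g)

/-- The period matrix of `A`: the integrals of the differentials `d z_k` and `d (∂_k log θ₀)` over the cycles `lam i`. -/
def abelianPeriods : Matrix (Fin (2 * g)) (Fin (2 * g)) ℂ :=
  Matrix.of fun i j => Sum.elim (fun k => A.lam i k) (fun k => A.η i k) (split g j)

/-- The period matrix of `M_1`. -/
def periodMatrix (u e : R → Fin g → ℂ) (l : J → ℂ) : Matrix (Idx g R J) (Idx g R J) ℂ :=
  block (abelianPeriods A) (Matrix.of fun r j => Sum.elim (u r) (e r) (split g j)) (2 * Real.pi * Complex.I) l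

/-- The lattice of periods of `A`. -/
def lattice : Submodule ℤ (Fin g → ℂ) := Submodule.span ℤ (Set.range A.lam)

/-- The inverse image in `ℂ^g` of `A(F)`. -/
def points (F : IntermediateField ℚ ℂ) : Set (Fin g → ℂ) := {z | ∃ i, A.θ i z ≠ 0 ∧ ∀ j, A.θ j z / A.θ i z ∈ F}

/-- `A`, with its embedding and its endomorphisms, is defined over the number field `F`. -/
structure DefinedOver (F : IntermediateField ℚ ℂ) : Prop where
  numberField : FiniteDimensional ℚ F
  /-- the invariant differentials `d z_k` are defined over `F` -/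
  differentials : ∀ k i j, ∃ a : Fin (A.N + 1) → Fin (A.N + 1) → ℂ, (∀ p q, a p q ∈ F) ∧
    ∀ z, A.θ i z * pd k (A.θ j) z - A.θ j z * pd k (A.θ i) z = ∑ p, ∑ q, a p q * (A.θ p z * A.θ q z)
  /-- the sum of two points over `F` is a point over `F` -/
  add : ∀ z ∈ points A F, ∀ w ∈ points A F, z + w ∈ points A F
  /-- the endomorphisms are defined over `F` -/
  endo : ∀ Q : (Fin g → ℂ) →ₗ[ℂ] (Fin g → ℂ), (∀ w ∈ lattice A, Q w ∈ lattice A) → ∀ z ∈ points A F, Q z ∈ points A F

/-- The part of weight `-1` of the unipotent radical of the motivic Galois group of `M_1`: the matrices `block 1 N 1 0`,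
where `N` satisfies all relations `∑ Q_r N_r = 0` with `Q_r ∈ End A`, `∑ Q_r P_r = 0` (`m_r` is the matrix of `Q_r` for the
basis `lam` of the lattice). -/
def rowPart (u : R → Fin g → ℂ) : Set (Matrix (Idx g R J) (Idx g R J) ℂ) :=
  {x | ∃ N, (∀ (Q : R → (Fin g → ℂ) →ₗ[ℂ] (Fin g → ℂ)) (m : R → Matrix (Fin (2 * g)) (Fin (2 * g)) ℤ),
      (∀ r j, Q r (A.lam j) = ∑ i, (m r j i : ℂ) • A.lam i) → ∑ r, Q r (u r) ∈ lattice A →
        ∀ i, ∑ r, ∑ j, N r j * (m r j i : ℂ) = 0) ∧ x = block 1 N 1 0}

/-- The endomorphism `P` of `H_1(A, ℚ)` is an element of `End A ⊗ ℚ`. -/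
def IsEndo (P : Module.End ℚ (Fin (2 * g) → ℚ)) : Prop :=
  ∃ M : (Fin g → ℂ) →ₗ[ℂ] (Fin g → ℂ), ∀ v, M (A.per v) = A.per (P v)

/-- `A` has no nonzero abelian subvariety of CM type: for every `w ≠ 0` in `H_1(A, ℚ)` there are endomorphisms `S`, `T` of
`H_1(A, ℚ)` which commute with `End A ⊗ ℚ` and satisfy `S T w ≠ T S w`. (The algebra `E'` of the endomorphisms which commute
with `End A ⊗ ℚ` acts on `H_1(A')`, for an abelian subvariety `A'`, by the commutant of `End A' ⊗ ℚ`, which is commutative if
and only if `A'` is of CM type; and the set of the `w` which are annihilated by the commutators of `E'` is of the form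
`H_1(A')`.) -/
def NoCMPart : Prop :=
  ∀ w : Fin (2 * g) → ℚ, w ≠ 0 → ∃ S T : Module.End ℚ (Fin (2 * g) → ℚ),
    (∀ P, IsEndo A P → S * P = P * S ∧ T * P = P * T) ∧ S (T w) ≠ T (S w)

variable {B : Type} [Fintype B] [DecidableEq B]

/-- `T` is the set of the complex points of a subtorsor over the algebraic numbers: a set of invertible matrices, closed
under `x y⁻¹ z`, defined by polynomials with algebraic coefficients. -/
def IsTorsor (T : Set (Matrix B B ℂ)) : Prop :=
  (∀ x ∈ T, ∀ y ∈ T, ∀ z ∈ T, x * y⁻¹ * z ∈ T) ∧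
  ∃ I : Set (MvPolynomial (B × B) ℂ), (∀ p ∈ I, ∀ m, IsAlgebraic ℚ (p.coeff m)) ∧
    ∀ x : Matrix B B ℂ, x ∈ T ↔ IsUnit x ∧ ∀ p ∈ I, MvPolynomial.eval (fun b => x b.1 b.2) p = 0

/-- The group of the matrices `x y⁻¹`, `x, y ∈ T`, is defined by polynomials with rational coefficients. -/
def GroupOverQ (T : Set (Matrix B B ℂ)) : Prop :=
  ∃ I : Set (MvPolynomial (B × B) ℂ), (∀ p ∈ I, ∀ m, ∃ q : ℚ, p.coeff m = q) ∧
    ∀ g : Matrix B B ℂ, (∃ x ∈ T, ∃ y ∈ T, g = x * y⁻¹) ↔ IsUnit g ∧
      ∀ p ∈ I, MvPolynomial.eval (fun b => g b.1 b.2) p = 0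

variable {m : ℕ}

/-- A subobject of `End(M_0) ⊕ H_1(A)` (complexified, on the Betti side): a subspace spanned by its rational elements, and
also by its elements which are algebraic on the de Rham side. -/
def IsSubobject (C₀ : Matrix (Fin m) (Fin m) ℂ) (Γ : Submodule ℂ (Matrix (Fin m) (Fin m) ℂ × (Fin (2 * g) → ℂ))) :
    Prop :=
  Γ ≤ Submodule.span ℂ {p | p ∈ Γ ∧ (∀ i j, ∃ q : ℚ, p.1 i j = q) ∧ ∀ j, ∃ q : ℚ, p.2 j = q} ∧
  Γ ≤ Submodule.span ℂ {p | p ∈ Γ ∧ (∀ i j, IsAlgebraic ℚ ((C₀⁻¹ * p.1 * C₀) i j)) ∧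
    ∀ j, IsAlgebraic ℚ ((p.2 ᵥ* abelianPeriods A) j)}

/-- `H_1(A)` and `End(M_0)` are disjoint: every subobject of `End(M_0) ⊕ H_1(A)` is the sum of its intersections with
`End(M_0)` and `H_1(A)`. -/
def AreDisjoint (C₀ : Matrix (Fin m) (Fin m) ℂ) : Prop :=
  ∀ Γ, IsSubobject A C₀ Γ → ∀ p ∈ Γ, (0, p.2) ∈ Γ

/-- The period matrix `C₀` of `M_0` is contained in a subtorsor `T₀` over the algebraic numbers whose group is defined over
`ℚ` and triangularizable over `ℂ`: the de Rham-Betti group of `M_0` is triangularizable. -/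
def IsTriangularizable (C₀ : Matrix (Fin m) (Fin m) ℂ) : Prop :=
  ∃ T₀ : Set (Matrix (Fin m) (Fin m) ℂ), IsTorsor T₀ ∧ GroupOverQ T₀ ∧ C₀ ∈ T₀ ∧
    ∃ S S' : Matrix (Fin m) (Fin m) ℂ, S * S' = 1 ∧
      ∀ x ∈ T₀, ∀ y ∈ T₀, ∀ i j, j < i → (S * (x * y⁻¹) * S') i j = 0

/-- **The abelian logarithms over an arbitrary motive.** `A` is an abelian variety over the algebraic numbers, defined over
the number field `F` together with its endomorphisms, the `u r` are logarithms of arbitrary points of `A(F)`, `C₀` is the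
period matrix of an arbitrary object `M_0`. (The `e r` and the `l j` can be arbitrary complex numbers; for the motive `M_1`
they are the integrals of the second kind from `0` to `P_r` and logarithms of algebraic numbers.) -/
theorem result (A : AbVar g) (F : IntermediateField ℚ ℂ) (hF : DefinedOver A F) (u e : R → Fin g → ℂ)
    (hu : ∀ r, u r ∈ points A F) (l : J → ℂ)
    (C₀ : Matrix (Fin m) (Fin m) ℂ) (h₀ : IsUnit C₀)
    (T : Set (Matrix (Fin m ⊕ Idx g R J) (Fin m ⊕ Idx g R J) ℂ)) (hT : IsTorsor T) (hG : GroupOverQ T)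
    (hc : fromBlocks C₀ 0 0 (periodMatrix A u e l) ∈ T)
    (h : AreDisjoint A C₀ ∨ NoCMPart A ∧ IsTriangularizable C₀) :
    ∀ n ∈ rowPart A u, ∀ x ∈ T, fromBlocks 1 0 0 n * x ∈ T := by
  rintro _ ⟨N, hN, rfl⟩
  have tor : ∀ {B : Type} [Fintype B] [DecidableEq B] {T : Set (Matrix B B ℂ)}, IsTorsor T →
      Pool.Agent.TH127.PT.IsSubtorsor Pool.Agent.W245.EB.QB T := by
    rintro B _ _ T ⟨h1, I, h2, h3⟩
    exact ⟨fun x hx => ((h3 x).1 hx).1, h1, I, fun p hp m => Pool.Agent.W245.EB.mem_QB.2 (h2 p hp m), h3⟩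
  have grp : ∀ {B : Type} [Fintype B] [DecidableEq B] {T : Set (Matrix B B ℂ)}, GroupOverQ T →
      Pool.Agent.X306.RL.GDef Pool.Agent.X306.EM.QQ T := by
    rintro B _ _ T ⟨I, hI1, hI2⟩
    exact ⟨I, fun p hp m => by
      obtain ⟨q, hq⟩ := hI1 p hp m
      exact Pool.Agent.X306.EM.mem_QQ.2 ⟨q, hq.symm⟩, hI2⟩
  have hlam : ∀ i, A.per (A.bas i) = A.lam i := fun i => by
    rw [Pool.Agent.X306.AV.bas_eq, Pool.Agent.X306.AV.lam_per]
  have heta : ∀ i, A.eta (A.bas i) = A.η i := fun i => by
    rw [Pool.Agent.X306.AV.bas_eq]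
    unfold AbVar.eta
    rw [Fintype.linearCombination_apply, Finset.sum_eq_single i]
    · rw [Pi.single_eq_same, one_smul]
    · intro k _ hk
      rw [Pi.single_eq_of_ne hk, zero_smul]
    · intro h
      exact absurd (Finset.mem_univ _) h
  have hPA : abelianPeriods A = Pool.Agent.X306.AV.PA A := by
    ext i j
    change Sum.elim (fun k => A.lam i k) (fun k => A.η i k) (split g j) = A.dR (split g j) (A.bas i)
    rcases split g j with k | k
    · change A.lam i k = A.per (A.bas i) k
      rw [hlam]
    · change A.η i k = A.eta (A.bas i) k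
      rw [heta]
  have hpm : periodMatrix A u e l = Pool.Agent.X306.AV.pm (Pool.Agent.X306.AV.pers A u e l) := by
    unfold periodMatrix block Pool.Agent.X306.AV.pm Pool.Agent.X306.AV.bm
    rw [hPA]
    simp only [one_smul]
    rfl
  have hb : block (1 : Matrix (Fin (2 * g)) (Fin (2 * g)) ℂ) N 1 (0 : J → ℂ) =
      Pool.Agent.X306.AV.bm (1, N, 1, 0) 1 := by
    unfold block Pool.Agent.X306.AV.bm
    simp only [one_smul]
  rw [hb]
  have hc' : Pool.Agent.X306.AV.cmM (Pool.Agent.X306.AV.pers A u e l) C₀ ∈ T := by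
    rw [hpm] at hc
    exact hc
  have hF' : Pool.Agent.X306.AV.Fld A F := ⟨hF.numberField, hF.differentials, hF.add, hF.endo⟩
  refine Pool.Agent.X306.AV.to_group (tor hT) (A := A) fun f => ?_
  rcases h with h | ⟨hA, T₀, hT₀, hG₀, hC₀, S, S', hS, hU⟩
  · have G := Pool.Agent.X306.AV.good_gS (tor hT) (grp hG) h₀ hc'
    refine Pool.Agent.X306.AV.mem_kk_of_dj (tor hT) (grp hG) h₀ hc' (fun Γ h1 h2 => ?_) (G.uA_mem hF' hu hN f)
    refine h Γ ⟨?_, ?_⟩
    · refine (Pool.Agent.X306.AV.spanv (F := Pool.Agent.X306.EM.QQ) h1).trans (Submodule.span_mono ?_)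
      rintro p ⟨hp1, hp2, hp3⟩
      refine ⟨hp1, fun i j => ?_, fun j => ?_⟩
      · obtain ⟨q, hq⟩ := Pool.Agent.X306.EM.mem_QQ.1 (hp2 i j)
        exact ⟨q, hq.symm⟩
      · obtain ⟨q, hq⟩ := Pool.Agent.X306.EM.mem_QQ.1 (hp3 j)
        exact ⟨q, hq.symm⟩
    · refine (Pool.Agent.X306.AV.spanv' (K := Pool.Agent.W245.EB.QB) (Pool.Agent.X306.RL.c0_inv h₀)
        (Pool.Agent.X306.RL.inv_c0 h₀) (Pool.Agent.X306.AV.PA_inv A) (Pool.Agent.X306.AV.inv_PA A) h2).trans
        (Submodule.span_mono ?_)
      rintro p ⟨hp1, hp2, hp3⟩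
      refine ⟨hp1, fun i j => Pool.Agent.W245.EB.mem_QB.1 (hp2 i j), fun j => ?_⟩
      rw [hPA]
      exact Pool.Agent.W245.EB.mem_QB.1 (hp3 j)
  · have G := Pool.Agent.X306.AV.good_gU (tor hT) (grp hG) h₀ hc' Pool.Agent.X306.AV.gt_br
      (fun D f => Pool.Agent.X306.AV.gt_der (tor hT₀) (grp hG₀) hC₀ D f)
    exact Pool.Agent.X306.AV.mem_kk_of_tri (fun w hw => hA w hw) G (mul_eq_one_comm.1 hS) hS
      (fun y hy => Pool.Agent.X306.AV.upper_LL h₀ hC₀ hU hy) (G.uA_mem hF' hu hN f)

end Pool.Agent.Results.MP_5d33ca_ag.AbelianOverArbitraryMotive
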