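import Pool.Agent.X306.AV.OQ

/-!
# Every 1-motive: the unipotent radical of the de Rham-Betti group is motivic

Let `A` be an abelian variety of dimension `g` over the field `ℚ̄` of algebraic numbers, given by theta functions (`AbVar`,
`Pool.Agent.Y102.AVDefs`). Every 1-motive `M = [ℤ^R → G]` over `ℚ̄` with abelian part `A` is of the following form. Points
`Q_j ∈ A(ℚ̄)` (`j ∈ J`) with logarithms `q_j ∈ ℂ^g` define, by the polarization of `A`, algebraically trivial line bundles on `A`
and an extension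

  `0 → 𝔾ₘ^J → G → A → 0`,

and points `P̃_r ∈ G(ℚ̄)` (`r ∈ R`) over points `P_r ∈ A(ℚ̄)` with logarithms `u_r` define the 1-motive. The de Rham realisation
of `G` has the basis of the `g` differentials of the first kind `dz_k`, the `g` differentials of the second kind
`d (∂_k log θ₀)`, and the `J` differentials of the third kind

  `ξ_j = d log (θ₀(z - q_j) / θ₀(z)) + ∑_k f_{jk} dz_k`,

where the constants `f_{jk}` (values of `∂_k log θ₀` at `-q_j`, up to sign and algebraic numbers) make `ξ_j` algebraic. The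
periods of `M` are the entries of the matrix `periodMatrix` with the rows

* `(λ_{ik} | η_{ik} | ∑_k (f_{jk} λ_{ik} - η_{ik} q_{jk}) | 0)` for a suitable lift to `G` of the cycle `i` of `A`;
* `(0 | 0 | 2πi δ_{jj'} | 0)` for the circles of the torus;
* `(u_{rk} | e_{rk} | L_{rj} | δ_{rr'})` for a path from `0` to `P̃_r` in `G`.

**Normalisation.** The points `P_r`, `Q_j` can satisfy relations `∑ E_r P_r + ∑ E'_j Q_j = 0` (up to torsion) with
`E_r, E'_j ∈ End A`. Changing the paths by rational multiples of cycles (an isogeny of `M`) and the differentials of the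
second kind (adding algebraic constants to the `e_{rk}`, `f_{jk}`; a change of the algebraic bases) one can achieve that the
vectors `(u_r, e_r)` and `(q_j, f_j)` satisfy all these relations; this is possible because `End A ⊗ ℚ` is semisimple. We
assume that it has been done (hypothesis `hn`).

**The logarithm.** The period matrix is the product of a unipotent matrix and the period matrix of `A` and `ℚ(1)`. The part of
weight `-2` of the logarithm of the unipotent matrix is `1 / 2πi` times

  `ℓ_{rj} = L_{rj} - (1/2) ∑_k (f_{jk} u_{rk} - e_{rk} q_{jk})`   (`logarithm`).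

**The unipotent radical.** Let `Y_r, Z_j ∈ H_1(A, ℂ)` be families which satisfy the relations of the `P_r`, `Q_j`
(`IsRelated`). The commutators `c_{rj} = ω(Z'_j, Y_r) - ω(Z_j, Y'_r)` of such families (`ω` is the Riemann form) span the
subspace `commutators`. An integral matrix `χ` is `IsCentral` if `∑ χ_{rj} c_{rj} = 0` for all commutators; geometrically:
the line bundle `∑ χ_{rj} (p_r, q_j)^* 𝒫` (`𝒫` the Poincaré bundle) is trivial, up to torsion, on the abelian subvariety
of `A^R × A^J` generated by the point `(P, Q)`, and the 1-motive defines a nonzero algebraic number in its fibre at `(P, Q)`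
(the deficient points of Ribet, Bertrand and Jossen); this number is `exp (∑ χ_{rj} ℓ_{rj})`.
The unipotent radical of the motivic Galois group of `M` consists of the matrices `block 1 (columns A Z) 1 Y w` for which
`(Y, Z)` satisfies the relations and `∑ χ_{rj} (w - (1/2) Y (columns Z))_{rj} = 0` for all central `χ` with
`∑ χ_{rj} ℓ_{rj} ∈ 2πi ℚ` (theorems of Ribet, André, Bertolin, Bertrand, Jossen on the Mumford-Tate groups of 1-motives).

**Theorem.** Let `T` be a `ℚ̄`-subtorsor of `Iso(M_dR, M_B)` which contains the period matrix and whose group (the matrices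
`x y⁻¹`, `x, y ∈ T`) is defined over `ℚ`; for example the de Rham-Betti torsor of `M`.

1. For arbitrary complex numbers `L_{rj}`, `T` is stable under the group of all `block 1 (columns A Z) 1 Y w` for which
`(Y, Z)` satisfies the relations and `∑ χ_{rj} (w - (1/2) Y (columns Z))_{rj} = 0` for the central `χ` for which
`∑ χ_{rj} ℓ_{rj}` is in `ℚ̄ + 2πi ℤ`.

2. If `exp (∑ χ_{rj} ℓ_{rj})` is algebraic for all central `χ`, as is the case for the 1-motives over `ℚ̄`, then `T` is stable under
the group of all `block 1 (columns A Z) 1 Y w` for which `(Y, Z)` satisfies the relations and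
`∑ χ_{rj} (w - (1/2) Y (columns Z))_{rj} = 0` for the central `χ` with `exp (∑ χ_{rj} ℓ_{rj}) = 1`: the unipotent radical of the
motivic Galois group.

So for every 1-motive `M` the unipotent radicals (parts of weight `≤ -1`) of the de Rham-Betti group and of the motivic
Galois group are the same, and `Ω^dRB(M) = Ω^mot(M)` if and only if this is so for the pure motive `H_1(A) ⊕ ℚ(1)`. For
1-motives whose abelian part is isogenous to a product of elliptic curves the pure case is known (Kreutz, Shen, Vial), so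
`Ω^dRB(M) = Ω^mot(M)` for all `H^1` of curves of geometric genus `≤ 1` relative to finite sets of points, open or singular.

## The proof

The rational components of the logarithmic derivatives of the period matrix are in the Lie algebra of the group of `T`,
which is defined over `ℚ`. Because of the normalisation they are in the Lie algebra `𝔤` of the rational elements which
commute with `End A` and satisfy the relations (`lam_comm`, `lam_rel`), and the results of `OneMotivesUnipotentPart`
(theorems of Schneider-Lang and of Lang; `Good.uA_mem`) give for all rational families `N = (Y, Z)` with the relations a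
lift to `𝔤`. So there is an element of `𝔤` of the form `(X₁, 0, x₁, w₁)` with `X₁` central, `x₁` and `X₁ - x₁` invertible, and the
bracket with it shows that `𝔤` is a direct sum (`shapeO`): every element of `𝔤` is determined by a similitude `X` with multiplier
`x`, a family `N` with the relations and `w ∈ x s + U₂`, where `U₂` is the subspace of weight `-2`. The part of weight `-2` of the
logarithmic derivative is `D ℓ / 2πi` plus half of a commutator (`lmS_last`). Hence a linear form on the weight `-2` part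
with integral coefficients `χ` which is zero on `U₂` is central and `D (∑ χ_{rj} ℓ_{rj} - 2πi n) = 0` for all derivations `D` over
`ℚ̄`, so `∑ χ_{rj} ℓ_{rj} - 2πi n` is algebraic (`w2_mem`) and, by the theorem of Hermite and Lindemann, zero in the situation of 2.
-/

set_option autoImplicit false

open Matrix Pool.Agent.Y102

noncomputable section

namespace Pool.Agent.Results.MP_5d33ca_ag.AllOneMotives

/-- The rows (Betti side): the `2g` cycles of `A`, lifted to `G`, the circles of the torus, and the paths from `0` to the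
points of `G`. The columns (de Rham side) have the same indices. -/
abbrev Idx (g : ℕ) (R J : Type) : Type := (Fin (2 * g) ⊕ J) ⊕ R

variable {g : ℕ} {R : Type} [Fintype R] [DecidableEq R] {J : Type} [Fintype J] [DecidableEq J]

/-- The block matrix `(X, z, 0; 0, μ, 0; Y, w, 1)`. -/
def block (X : Matrix (Fin (2 * g)) (Fin (2 * g)) ℂ) (z : Matrix (Fin (2 * g)) J ℂ) (μ : ℂ)
    (Y : Matrix R (Fin (2 * g)) ℂ) (w : Matrix R J ℂ) : Matrix (Idx g R J) (Idx g R J) ℂ :=
  fromBlocks (fromBlocks X z 0 (μ • 1)) 0 (fromCols Y w) 1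

/-- The index set `Fin (2 * g)` of the de Rham basis of `A`: first the `g` differentials `d z_k` of the first kind, then the
`g` differentials `d (∂_k log θ₀)` of the second kind. -/
def split (g : ℕ) : Fin (2 * g) ≃ Fin g ⊕ Fin g := (finCongr (two_mul g)).trans finSumFinEquiv.symm

variable (A : AbVar g)

/-- The period matrix of `A`. -/
def abelianPeriods : Matrix (Fin (2 * g)) (Fin (2 * g)) ℂ :=
  Matrix.of fun i j => Sum.elim (fun k => A.lam i k) (fun k => A.η i k) (split g j)

/-- The periods of the differentials of the third kind. -/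
def thirdPeriods (q f : J → Fin g → ℂ) : Matrix (Fin (2 * g)) J ℂ :=
  Matrix.of fun i j => ∑ k, (f j k * A.lam i k - A.η i k * q j k)

/-- The period matrix of `M`. -/
def periodMatrix (u e : R → Fin g → ℂ) (q f : J → Fin g → ℂ) (L : Matrix R J ℂ) : Matrix (Idx g R J) (Idx g R J) ℂ :=
  block (abelianPeriods A) (thirdPeriods A q f) (2 * Real.pi * Complex.I)
    (Matrix.of fun r j => Sum.elim (u r) (e r) (split g j)) L

/-- The Riemann form on `H_1(A, ℂ)`, in the basis `lam`. -/
def riemann (v w : Fin (2 * g) → ℂ) : ℂ :=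
  ∑ a, ∑ b, v a * w b * ((∑ k, (A.η a k * A.lam b k - A.η b k * A.lam a k)) / (2 * Real.pi * Complex.I))

/-- The columns `γ ↦ ω(Z_j, γ)`, for the cycles `γ` of the basis. -/
def columns (Z : J → Fin (2 * g) → ℂ) : Matrix (Fin (2 * g)) J ℂ := Matrix.of fun i j => riemann A (Z j) (Pi.single i 1)

/-- The lattice of periods of `A`. -/
def lattice : Submodule ℤ (Fin g → ℂ) := Submodule.span ℤ (Set.range A.lam)

/-- The inverse image in `ℂ^g` of `A(F)`. -/
def points (F : IntermediateField ℚ ℂ) : Set (Fin g → ℂ) := {z | ∃ i, A.θ i z ≠ 0 ∧ ∀ j, A.θ j z / A.θ i z ∈ F}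

/-- `A`, with its embedding and its endomorphisms, is defined over the number field `F`. -/
structure DefinedOver (F : IntermediateField ℚ ℂ) : Prop where
  numberField : FiniteDimensional ℚ F
  /-- the invariant differentials `d z_k` are defined over `F` -/
  differentials : ∀ k i j, ∃ a : Fin (A.N + 1) → Fin (A.N + 1) → ℂ, (∀ p q, a p q ∈ F) ∧
    ∀ z, A.θ i z * pd k (A.θ j) z - A.θ j z * pd k (A.θ i) z = ∑ p, ∑ q, a p q * (A.θ p z * A.θ q z)
  /-- the sum of two points over `F` is a point over `F` -/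
  add : ∀ z ∈ points A F, ∀ w ∈ points A F, z + w ∈ points A F
  /-- the endomorphisms are defined over `F` -/
  endo : ∀ Q : (Fin g → ℂ) →ₗ[ℂ] (Fin g → ℂ), (∀ w ∈ lattice A, Q w ∈ lattice A) → ∀ z ∈ points A F, Q z ∈ points A F
  /-- the endomorphisms (with matrix `m` for the basis `lam` of the lattice) act on the de Rham cohomology by matrices with
  algebraic entries -/
  deRham : ∀ (Q : (Fin g → ℂ) →ₗ[ℂ] (Fin g → ℂ)) (m : Matrix (Fin (2 * g)) (Fin (2 * g)) ℤ),
    (∀ j, Q (A.lam j) = ∑ i, (m j i : ℂ) • A.lam i) → ∃ b : Matrix (Fin (2 * g)) (Fin (2 * g)) ℂ,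
      (∀ i j, IsAlgebraic ℚ (b i j)) ∧ m.map (Int.cast : ℤ → ℂ) * abelianPeriods A = abelianPeriods A * b

/-- The family `(Y, Z)` of elements of `H_1(A, ℂ)` satisfies all relations `∑ E_r Y_r + ∑ E'_j Z_j = 0` with `E_r, E'_j ∈ End A`
and `∑ E_r P_r + ∑ E'_j Q_j = 0` (`m` are the matrices of the endomorphisms for the basis `lam` of the lattice). -/
def IsRelated (u : R → Fin g → ℂ) (q : J → Fin g → ℂ) (Y : R → Fin (2 * g) → ℂ) (Z : J → Fin (2 * g) → ℂ) : Prop :=
  ∀ (E : R ⊕ J → (Fin g → ℂ) →ₗ[ℂ] (Fin g → ℂ)) (m : R ⊕ J → Matrix (Fin (2 * g)) (Fin (2 * g)) ℤ),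
    (∀ s j, E s (A.lam j) = ∑ i, (m s j i : ℂ) • A.lam i) → ∑ s, E s (Sum.elim u q s) ∈ lattice A →
      ∀ i, ∑ s, ∑ j, Sum.elim Y Z s j * (m s j i : ℂ) = 0

/-- The complex span of the commutators `ω(Z'_j, Y_r) - ω(Z_j, Y'_r)`, for rational families `(Y, Z)`, `(Y', Z')` which satisfy
the relations. -/
def commutators (u : R → Fin g → ℂ) (q : J → Fin g → ℂ) : Submodule ℂ (Matrix R J ℂ) :=
  Submodule.span ℂ {c | ∃ (Y Y' : R → Fin (2 * g) → ℚ) (Z Z' : J → Fin (2 * g) → ℚ),
    IsRelated A u q (fun r a => Y r a) (fun j a => Z j a) ∧ IsRelated A u q (fun r a => Y' r a) (fun j a => Z' j a) ∧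
    c = Matrix.of fun r j =>
      riemann A (fun a => Z' j a) (fun a => Y r a) - riemann A (fun a => Z j a) (fun a => Y' r a)}

/-- The coordinates in `H_1(A, ℂ)` of the vectors `(u_r, e_r)`: the rows `y_r` with `y_r (abelianPeriods A) = (u_r, e_r)`. -/
def coordinates {S : Type} (u e : S → Fin g → ℂ) : S → Fin (2 * g) → ℂ :=
  fun r => (fun j => Sum.elim (u r) (e r) (split g j)) ᵥ* (abelianPeriods A)⁻¹

/-- The numbers `ℓ_{rj}`: the part of weight `-2` of the logarithm of the period matrix, times `2πi`. -/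
def logarithm (u e : R → Fin g → ℂ) (q f : J → Fin g → ℂ) (L : Matrix R J ℂ) : Matrix R J ℂ :=
  Matrix.of fun r j => L r j - (1 / 2) * ∑ k, (f j k * u r k - e r k * q j k)

/-- The sum of the `χ_{rj} w_{rj}`. -/
def pairing (χ : Matrix R J ℤ) (w : Matrix R J ℂ) : ℂ := ∑ r, ∑ j, (χ r j : ℂ) * w r j

/-- The integral matrices which are zero on the commutators. -/
def IsCentral (u : R → Fin g → ℂ) (q : J → Fin g → ℂ) (χ : Matrix R J ℤ) : Prop :=
  ∀ c ∈ commutators A u q, pairing χ c = 0

/-- The unipotent group given by a set `X` of integral matrices: all `block 1 (columns A Z) 1 Y w` for which `(Y, Z)` satisfies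
the relations and the `χ` in `X` are zero on the logarithm `w - (1/2) Y (columns Z)` in weight `-2`. -/
def unipotentGroup (u : R → Fin g → ℂ) (q : J → Fin g → ℂ) (X : Set (Matrix R J ℤ)) :
    Set (Matrix (Idx g R J) (Idx g R J) ℂ) :=
  {h | ∃ Y Z w, IsRelated A u q Y Z ∧ (∀ χ ∈ X, pairing χ (w - (1 / 2 : ℂ) • (Matrix.of Y * columns A Z)) = 0) ∧
    h = block 1 (columns A Z) 1 (Matrix.of Y) w}

variable {B : Type} [Fintype B] [DecidableEq B]

/-- `T` is the set of the complex points of a subtorsor over the algebraic numbers: a set of invertible matrices, closed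
under `x y⁻¹ z`, defined by polynomials with algebraic coefficients. -/
def IsTorsor (T : Set (Matrix B B ℂ)) : Prop :=
  (∀ x ∈ T, ∀ y ∈ T, ∀ z ∈ T, x * y⁻¹ * z ∈ T) ∧
  ∃ I : Set (MvPolynomial (B × B) ℂ), (∀ p ∈ I, ∀ m, IsAlgebraic ℚ (p.coeff m)) ∧
    ∀ x : Matrix B B ℂ, x ∈ T ↔ IsUnit x ∧ ∀ p ∈ I, MvPolynomial.eval (fun b => x b.1 b.2) p = 0

/-- The group of the matrices `x y⁻¹`, `x, y ∈ T`, is defined by polynomials with rational coefficients. -/
def GroupOverQ (T : Set (Matrix B B ℂ)) : Prop :=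
  ∃ I : Set (MvPolynomial (B × B) ℂ), (∀ p ∈ I, ∀ m, ∃ q : ℚ, p.coeff m = q) ∧
    ∀ g : Matrix B B ℂ, (∃ x ∈ T, ∃ y ∈ T, g = x * y⁻¹) ↔ IsUnit g ∧
      ∀ p ∈ I, MvPolynomial.eval (fun b => g b.1 b.2) p = 0

theorem entry_eq (a b : Fin (2 * g)) : (∑ k, (A.η a k * A.lam b k - A.η b k * A.lam a k)) / (2 * Real.pi * Complex.I) =
    ((A.om (A.bas a) (A.bas b) : ℚ) : ℂ) := by
  rw [A.om_pairing]
  simp only [A.eta_bas, A.per_bas]

theorem columns_eq (Z : J → Fin (2 * g) → ℂ) :
    columns A Z = Pool.Agent.X306.AV.tz A (Matrix.of fun j a => Z j a) := by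
  ext i j
  change ∑ a, ∑ b, Z j a * (Pi.single i 1 : Fin (2 * g) → ℂ) b * _ = ∑ a, Z j a * ((A.om (A.bas a) (A.bas i) : ℚ) : ℂ)
  refine Finset.sum_congr rfl fun a _ => ?_
  rw [Finset.sum_eq_single i]
  · rw [Pi.single_eq_same, mul_one, entry_eq]
  · intro b _ hb
    rw [Pi.single_eq_of_ne hb, mul_zero, zero_mul]
  · intro h
    exact absurd (Finset.mem_univ _) h

theorem riemann_rat (v w : Fin (2 * g) → ℚ) :
    riemann A (fun a => (v a : ℂ)) (fun a => (w a : ℂ)) = ((A.om v w : ℚ) : ℂ) := by
  unfold riemann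
  have h1 : ∀ w : Fin (2 * g) → ℚ, w = ∑ a, w a • A.bas a := by
    intro w
    conv_lhs => rw [← A.bas.sum_repr w]
    rfl
  have h2 : A.om v w = ∑ a, ∑ b, v a * (w b * A.om (A.bas a) (A.bas b)) := by
    conv_lhs => rw [h1 v]
    rw [map_sum, LinearMap.sum_apply]
    refine Finset.sum_congr rfl fun a _ => ?_
    rw [map_smul, LinearMap.smul_apply]
    conv_lhs => rw [h1 w]
    rw [map_sum, smul_eq_mul, Finset.mul_sum]
    refine Finset.sum_congr rfl fun b _ => ?_
    rw [map_smul, smul_eq_mul]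
  rw [h2, Rat.cast_sum]
  refine Finset.sum_congr rfl fun a _ => ?_
  rw [Rat.cast_sum]
  refine Finset.sum_congr rfl fun b _ => ?_
  rw [entry_eq, Rat.cast_mul, Rat.cast_mul]
  ring

theorem rel_iff (u : R → Fin g → ℂ) (q : J → Fin g → ℂ) (Y : R → Fin (2 * g) → ℂ) (Z : J → Fin (2 * g) → ℂ) :
    IsRelated A u q Y Z ↔ Pool.Agent.X306.AV.RelN A u q (Sum.elim Y Z) := Iff.rfl

theorem commutators_eq (u : R → Fin g → ℂ) (q : J → Fin g → ℂ) :
    commutators A u q = Pool.Agent.X306.AV.CmS A u q := by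
  have hcast : ∀ (Y : R → Fin (2 * g) → ℚ) (Z : J → Fin (2 * g) → ℚ),
      (Sum.elim (fun r a => ((Y r a : ℚ) : ℂ)) (fun j a => ((Z j a : ℚ) : ℂ)) : R ⊕ J → Fin (2 * g) → ℂ) =
      fun s a => ((Sum.elim Y Z s a : ℚ) : ℂ) := by
    intro Y Z
    funext s a
    rcases s with s | s <;> rfl
  unfold commutators Pool.Agent.X306.AV.CmS
  congr 1
  ext c
  constructor
  · rintro ⟨Y, Y', Z, Z', h, h', rfl⟩
    refine ⟨Sum.elim Y Z, Sum.elim Y' Z', ?_, ?_, ?_⟩
    · rw [← hcast]
      exact h
    · rw [← hcast]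
      exact h'
    · ext r j
      change riemann A _ _ - riemann A _ _ = ((A.om (Z' j) (Y r) - A.om (Z j) (Y' r) : ℚ) : ℂ)
      rw [riemann_rat, riemann_rat, Rat.cast_sub]
  · rintro ⟨N, N', h, h', rfl⟩
    refine ⟨fun r => N (Sum.inl r), fun r => N' (Sum.inl r), fun j => N (Sum.inr j), fun j => N' (Sum.inr j), ?_, ?_, ?_⟩
    · rw [rel_iff, hcast]
      refine (congrArg (Pool.Agent.X306.AV.RelN A u q) ?_).mp h
      funext s a
      rcases s with s | s <;> rfl
    · rw [rel_iff, hcast]
      refine (congrArg (Pool.Agent.X306.AV.RelN A u q) ?_).mp h'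
      funext s a
      rcases s with s | s <;> rfl
    · ext r j
      change ((A.om (N' (Sum.inr j)) (N (Sum.inl r)) - A.om (N (Sum.inr j)) (N' (Sum.inl r)) : ℚ) : ℂ) =
        riemann A _ _ - riemann A _ _
      rw [riemann_rat, riemann_rat, Rat.cast_sub]

theorem PA_eq : abelianPeriods A = Pool.Agent.X306.AV.PA A := by
  ext i j
  change Sum.elim (fun k => A.lam i k) (fun k => A.η i k) (split g j) = A.dR (split g j) (A.bas i)
  rcases split g j with k | k
  · change A.lam i k = A.per (A.bas i) k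
    rw [A.per_bas]
  · change A.η i k = A.eta (A.bas i) k
    rw [A.eta_bas]

theorem coordinates_eq (u e : R → Fin g → ℂ) (q f : J → Fin g → ℂ) :
    Sum.elim (coordinates A u e) (coordinates A q f) = Pool.Agent.X306.AV.Nm A u e q f := by
  funext s
  rcases s with r | j
  · change (fun j => Sum.elim (u r) (e r) (split g j)) ᵥ* (abelianPeriods A)⁻¹ = _
    rw [PA_eq]
    rfl
  · change (fun i => Sum.elim (q j) (f j) (split g i)) ᵥ* (abelianPeriods A)⁻¹ = _
    rw [PA_eq]
    rfl

theorem logarithm_eq (u e : R → Fin g → ℂ) (q f : J → Fin g → ℂ) (L : Matrix R J ℂ) :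
    logarithm u e q f L = Pool.Agent.X306.AV.ell A u e q f L := by
  have h1 : (2 * Real.pi * Complex.I : ℂ) • (Pool.Agent.X306.AV.yM (Pool.Agent.X306.AV.Nm A u e q f) *
      Pool.Agent.X306.AV.tz A (Pool.Agent.X306.AV.zM (Pool.Agent.X306.AV.Nm A u e q f))) =
      (Matrix.of fun r s => Pool.Agent.X306.AV.UU (u r) (e r) ((Pool.Agent.X306.AV.eqv g).symm s)) *
        Pool.Agent.X306.AV.sw
          (Matrix.of fun j s => Pool.Agent.X306.AV.UU (q j) (f j) ((Pool.Agent.X306.AV.eqv g).symm s)) := by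
    rw [← Pool.Agent.X306.AV.yM_PA (A := A) (q := q) (f := f), ← Pool.Agent.X306.AV.zM_PA (A := A) (u := u) (e := e),
      Matrix.mul_assoc, Pool.Agent.X306.AV.PA_sw, Matrix.mul_smul]
  ext r j
  have h2 := congrFun (congrFun h1 r) j
  rw [Matrix.smul_apply, smul_eq_mul, Matrix.mul_apply (M := Matrix.of fun r s => Pool.Agent.X306.AV.UU (u r) (e r)
    ((Pool.Agent.X306.AV.eqv g).symm s)), Pool.Agent.X306.AV.sum_eqv] at h2
  have h3 : ∑ k, (f j k * u r k - e r k * q j k) = ∑ k, (Matrix.of fun r s => Pool.Agent.X306.AV.UU (u r) (e r)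
      ((Pool.Agent.X306.AV.eqv g).symm s)) r (Pool.Agent.X306.AV.eqv g (Sum.inl k)) * Pool.Agent.X306.AV.sw
      (Matrix.of fun j s => Pool.Agent.X306.AV.UU (q j) (f j) ((Pool.Agent.X306.AV.eqv g).symm s))
        (Pool.Agent.X306.AV.eqv g (Sum.inl k)) j + ∑ k, (Matrix.of fun r s => Pool.Agent.X306.AV.UU (u r) (e r)
      ((Pool.Agent.X306.AV.eqv g).symm s)) r (Pool.Agent.X306.AV.eqv g (Sum.inr k)) * Pool.Agent.X306.AV.sw
      (Matrix.of fun j s => Pool.Agent.X306.AV.UU (q j) (f j) ((Pool.Agent.X306.AV.eqv g).symm s))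
        (Pool.Agent.X306.AV.eqv g (Sum.inr k)) j := by
    rw [← Finset.sum_add_distrib]
    refine Finset.sum_congr rfl fun k _ => ?_
    simp only [Pool.Agent.X306.AV.sw, Matrix.of_apply, Equiv.symm_apply_apply, Sum.elim_inl, Sum.elim_inr,
      Pool.Agent.X306.AV.UU]
    ring
  change L r j - (1 / 2) * ∑ k, (f j k * u r k - e r k * q j k) = L r j - ((2 * Real.pi * Complex.I) / 2) * _
  rw [h3, ← h2]
  ring

/-- **Every 1-motive.** `A` is an abelian variety over the algebraic numbers, defined over the number field `F` together with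
its endomorphisms, the `u r` and `q j` are logarithms of arbitrary points `P_r`, `Q_j` of `A(F)`, the vectors `(u r, e r)` and
`(q j, f j)` are normalised: they satisfy the relations of the points. Let `T` be a subtorsor over the algebraic numbers which
contains the period matrix and whose group is defined over `ℚ`. -/
theorem result (A : AbVar g) (F : IntermediateField ℚ ℂ) (hF : DefinedOver A F) (u e : R → Fin g → ℂ)
    (hu : ∀ r, u r ∈ points A F) (q f : J → Fin g → ℂ) (hq : ∀ j, q j ∈ points A F)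
    (hn : IsRelated A u q (coordinates A u e) (coordinates A q f)) (L : Matrix R J ℂ)
    (T : Set (Matrix (Idx g R J) (Idx g R J) ℂ)) (hT : IsTorsor T) (hG : GroupOverQ T)
    (hc : periodMatrix A u e q f L ∈ T) :
    -- 1: arbitrary `L`
    (∀ h ∈ unipotentGroup A u q {χ | IsCentral A u q χ ∧
        ∃ n : ℤ, IsAlgebraic ℚ (pairing χ (logarithm u e q f L) - (n : ℂ) * (2 * Real.pi * Complex.I))},
      ∀ x ∈ T, h * x ∈ T) ∧
    -- 2: the 1-motives over the algebraic numbers
    ((∀ χ, IsCentral A u q χ → IsAlgebraic ℚ (Complex.exp (pairing χ (logarithm u e q f L)))) →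
      ∀ h ∈ unipotentGroup A u q {χ | IsCentral A u q χ ∧ Complex.exp (pairing χ (logarithm u e q f L)) = 1},
        ∀ x ∈ T, h * x ∈ T) := by
  have hT' : Pool.Agent.TH127.PT.IsSubtorsor Pool.Agent.W245.EB.QB T := by
    obtain ⟨h1, I, h2, h3⟩ := hT
    exact ⟨fun x hx => ((h3 x).1 hx).1, h1, I, fun p hp m => Pool.Agent.W245.EB.mem_QB.2 (h2 p hp m), h3⟩
  have hG' : Pool.Agent.X306.RL.GDef Pool.Agent.X306.EM.QQ T := by
    obtain ⟨I, hI1, hI2⟩ := hG
    exact ⟨I, fun p hp m => by
      obtain ⟨q, hq⟩ := hI1 p hp m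
      exact Pool.Agent.X306.EM.mem_QQ.2 ⟨q, hq.symm⟩, hI2⟩
  have hblock : ∀ X z μ Y w, block (g := g) (R := R) (J := J) X z μ Y w =
      Pool.Agent.X306.AV.sm (X, z, μ, Y, w) 1 := by
    intro X z μ Y w
    unfold block Pool.Agent.X306.AV.sm
    rw [one_smul]
  have hthird : thirdPeriods A q f = Pool.Agent.X306.AV.PA A * Pool.Agent.X306.AV.sw
      (Matrix.of fun j s => Pool.Agent.X306.AV.UU (q j) (f j) ((Pool.Agent.X306.AV.eqv g).symm s)) := by
    ext i j
    rw [Matrix.mul_apply, Pool.Agent.X306.AV.sum_eqv]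
    change ∑ k, (f j k * A.lam i k - A.η i k * q j k) =
      ∑ k, Pool.Agent.X306.AV.PA A i (Pool.Agent.X306.AV.eqv g (Sum.inl k)) * Sum.elim
        (fun k => Pool.Agent.X306.AV.UU (q j) (f j) ((Pool.Agent.X306.AV.eqv g).symm (Pool.Agent.X306.AV.eqv g (Sum.inr k))))
        (fun k => -Pool.Agent.X306.AV.UU (q j) (f j) ((Pool.Agent.X306.AV.eqv g).symm (Pool.Agent.X306.AV.eqv g (Sum.inl k))))
        ((Pool.Agent.X306.AV.eqv g).symm (Pool.Agent.X306.AV.eqv g (Sum.inl k))) +
      ∑ k, Pool.Agent.X306.AV.PA A i (Pool.Agent.X306.AV.eqv g (Sum.inr k)) * Sum.elim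
        (fun k => Pool.Agent.X306.AV.UU (q j) (f j) ((Pool.Agent.X306.AV.eqv g).symm (Pool.Agent.X306.AV.eqv g (Sum.inr k))))
        (fun k => -Pool.Agent.X306.AV.UU (q j) (f j) ((Pool.Agent.X306.AV.eqv g).symm (Pool.Agent.X306.AV.eqv g (Sum.inl k))))
        ((Pool.Agent.X306.AV.eqv g).symm (Pool.Agent.X306.AV.eqv g (Sum.inr k)))
    simp only [Equiv.symm_apply_apply, Sum.elim_inl, Sum.elim_inr, Pool.Agent.X306.AV.PA_inl,
      Pool.Agent.X306.AV.PA_inr, A.per_bas, A.eta_bas, Pool.Agent.X306.AV.UU]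
    rw [← Finset.sum_add_distrib]
    refine Finset.sum_congr rfl fun k _ => ?_
    ring
  have hpm : periodMatrix A u e q f L = Pool.Agent.X306.AV.sm (Pool.Agent.X306.AV.prS u e q f L A) 1 := by
    unfold periodMatrix
    rw [hblock, PA_eq, hthird]
    rfl
  rw [hpm] at hc
  have hn' : Pool.Agent.X306.AV.RelN A u q (Pool.Agent.X306.AV.Nm A u e q f) := by
    rw [← coordinates_eq]
    exact (rel_iff A u q _ _).1 hn
  have hE : Pool.Agent.X306.AV.EndAlg A := by
    rintro m ⟨Q, hQ⟩
    obtain ⟨b, hb, h1⟩ := hF.deRham Q m hQ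
    rw [PA_eq] at h1
    exact ⟨b, hb, h1⟩
  have main : ∀ h ∈ unipotentGroup A u q {χ | IsCentral A u q χ ∧
        ∃ n : ℤ, IsAlgebraic ℚ (pairing χ (logarithm u e q f L) - (n : ℂ) * (2 * Real.pi * Complex.I))},
      ∀ x ∈ T, h * x ∈ T := by
    rintro _ ⟨Y, Z, w, hYZ, hw, rfl⟩ x hx
    have h1 := Pool.Agent.X306.AV.mainO hT' hG' hc ⟨hF.numberField, hF.differentials, hF.add, hF.endo⟩ hu hq hE hn'
      ((rel_iff A u q Y Z).1 hYZ) (w := w) (fun χ h1 h2 => by
        have h3 := hw χ ⟨fun c hc' => h1 c (by rwa [commutators_eq] at hc'), by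
          rw [logarithm_eq A]
          exact h2⟩
        rw [columns_eq] at h3
        exact h3) hx
    rw [hblock, columns_eq]
    exact h1
  refine ⟨main, ?_⟩
  rintro halg _ ⟨Y, Z, w, hYZ, hw, rfl⟩ x hx
  refine main _ ⟨Y, Z, w, hYZ, fun χ hχ => hw χ ⟨hχ.1, ?_⟩, rfl⟩ x hx
  obtain ⟨n, hn⟩ := hχ.2
  have h1 : Complex.exp (pairing χ (logarithm u e q f L) - (n : ℂ) * (2 * Real.pi * Complex.I)) =
      Complex.exp (pairing χ (logarithm u e q f L)) := by
    rw [Complex.exp_sub, Complex.exp_int_mul_two_pi_mul_I, div_one]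
  have h2 : pairing χ (logarithm u e q f L) - (n : ℂ) * (2 * Real.pi * Complex.I) = 0 := by
    by_contra hne
    refine Pool.Agent.H340R2.LW.transcendental_cexp _ hn hne ?_
    rw [h1]
    exact halg χ hχ.1
  rw [← h1, h2, Complex.exp_zero]

end Pool.Agent.Results.MP_5d33ca_ag.AllOneMotives
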