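import Pool.Agent.X306.AV.UB

/-!
# 1-motives over the Kuga-Satake varieties of K3 surfaces: the de Rham-Betti torsor is motivic

Let `M = [ℤ^R → G]` be a 1-motive over the field `ℚ̄` of algebraic numbers, where `G` is an extension of an abelian variety `A`
by `𝔾ₘ^J`, given by points `Q_j ∈ A(ℚ̄)` (`j ∈ J`) with logarithms `q_j`, and the 1-motive is given by points `P̃_r ∈ G(ℚ̄)`
(`r ∈ R`) over points `P_r ∈ A(ℚ̄)` with logarithms `u_r`. Every 1-motive over `ℚ̄` has this form. As in `AllOneMotives` and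
`RealMultOneMotives` the abelian variety `A`, of dimension `g`, is given by theta functions (`AbVar`, `Pool.Agent.Y102.AVDefs`), and
the periods of `M` are the entries of the matrix `periodMatrix` with the rows

* `(λ_{ik} | η_{ik} | ∑_k (f_{jk} λ_{ik} - η_{ik} q_{jk}) | 0)` for a suitable lift to `G` of the cycle `i` of `A`;
* `(0 | 0 | 2πi δ_{jj'} | 0)` for the circles of the torus;
* `(u_{rk} | e_{rk} | L_{rj} | δ_{rr'})` for a path from `0` to `P̃_r` in `G`,

and the columns: the differentials of the first kind `dz_k`, of the second kind `d (∂_k log θ₀)`, of the third kind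
`d log (θ₀(z - q_j) / θ₀(z)) + ∑_k f_{jk} dz_k`, and the differentials of degree zero. The points `P_r`, `Q_j` can be arbitrary; if
they satisfy relations, the paths and the differentials are normalised in such a way that the vectors `(u_r, e_r)`, `(q_j, f_j)`
satisfy the same relations (hypothesis `hn`, see `AllOneMotives`).

**The hypothesis on `A`.** Let `𝔤` be the Lie algebra of the endomorphisms of `H_1(A, ℚ)` that annihilate all classes in
`H^1(A) ^ {⊗ 2m} (m)`, `m ≥ 0`, which are at the same time Hodge classes and de Rham-Betti classes (`InLie`). By the theorem of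
Deligne all Hodge classes are de Rham-Betti classes, so that `𝔤` is the Lie algebra of the Hodge group of `A`. We assume that
`𝔤 ⊗ ℂ` is a sum of `k` orthogonal Lie algebras `so(r)` with `r ≥ 3` and `r ≠ 5` which acts on `H_1(A, ℂ)` by tensor products of
spin representations (`TypeSpin`, as in `KugaSatake` of this repository): there are endomorphisms `E_i` of `H_1(A, ℂ)`,
`1 ≤ i ≤ N = k r`, with `E_i² = 1`, `E_i E_j = - E_j E_i`, each of them has one of `k` colours, each colour is used `r` times, and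
`𝔤 ⊗ ℂ` is spanned by the products `E_i E_j` of two different generators of the same colour.

Examples are the Kuga-Satake varieties `A` of all polarised Hodge structures `T` of K3 type over `ℚ̄` (the transcendental lattice of
a K3 surface, a hyperkähler variety or a cubic fourfold over `ℚ̄`), if the field `F` of endomorphisms of `T` is totally real (for
example `ℚ`, the general case) and `dim_F T ≠ 5`: here `𝔤` is the restriction of scalars of `so_F(T)`, acting on the even Clifford
algebra (see `KugaSatake`).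

**The Lie algebra of the motivic Galois group.** The motivic Galois group of a 1-motive is its Mumford-Tate group (Brylinski,
André), and the Lie algebra of the Mumford-Tate group of `A` is the sum of `𝔤` and the scalars. With the structure of the unipotent
radical (Ribet, Bertrand, Bertolin, Jossen, see `AllOneMotives`) one finds that the Lie algebra of the motivic Galois group consists
of the block matrices `(X, z, 0; 0, μ, 0; Y, w, 0)` such that

* `X - μ / 2` is in `𝔤 ⊗ ℂ`;
* `z` consists of the columns `γ ↦ ω(Z_j, γ)` for the Riemann form `ω`, and `(Y, Z)` satisfies all relations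
`∑ E_r P_r + ∑ E'_j Q_j = 0`, `E_r, E'_j ∈ End A`;
* `∑ χ_{rj} w_{rj} = n μ` for all central `χ` with `∑ χ_{rj} ℓ_{rj} = 2πi n`, `n ∈ ℤ`. Here `ℓ` is the part of weight `-2` of the
logarithm of the period matrix, and an integral matrix `χ` is central if `∑ χ_{rj} c_{rj} = 0` for all commutators `c`. For central
`χ` the number `exp (∑ χ_{rj} ℓ_{rj})` is algebraic (it is the value of a section of a trivial line bundle at the point).

This is `motivicLie` for the set of pairs `(χ, n)` as above.

**Theorem.** Let `T` be a `ℚ̄`-subtorsor of `Iso(M_dR, M_B)` which contains the period matrix and whose group (the matrices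
`x y⁻¹`, `x, y ∈ T`) is defined over `ℚ`; for example the de Rham-Betti torsor of `M`, the smallest one. Then `T` is stable under
`exp W` for all `W` in the Lie algebra of the motivic Galois group (2). So `T` contains the torsor of motivic periods; in particular
`Ω^dRB(M) = Ω^mot(M)`, and every de Rham-Betti class of every motive in the tensor category generated by `M` is motivated. (1) is
a statement for arbitrary complex numbers `L_{rj}`.

In `RealMultOneMotives` the same is proved for abelian varieties with maximal real multiplication, where the Mumford-Tate group is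
the group of the symplectic similitudes which commute with the endomorphisms; here it is much smaller, and there are Hodge classes
on the powers of `A` which are not products of classes of divisors.

## The proof

Let `𝔪` be the Lie algebra of endomorphisms of `H_1(A, ℚ)` generated by the rational components of the logarithmic derivatives
`D(P) P⁻¹` of the period matrix `P` of `A`, divided by `(2πi)^{1/2}`, for the derivations `D` of `ℂ` over `ℚ̄`. By the theorem of
Schneider and Lang `𝔪` acts semisimply and its commutant is `End A ⊗ ℚ` (`full_mm`), and so `𝔪 = 𝔤` by the theorem of `KugaSatake`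
on the subalgebras of Lie algebras of spin type. Let `𝔩` be the Lie algebra of the rational elements of the Lie algebra of the
group of `T` which commute with the endomorphisms and satisfy the relations. In `AllOneMotives` it is proved that it is a direct sum
of its parts of the weights `0`, `-1`, `-2`, up to a translation by `x s` in weight `-2` (`shapeO`). The logarithmic derivatives of
`periodMatrix` are in `𝔩`; so each element of `𝔪` is the part of weight zero, normalised to multiplier zero, of an element of `𝔩`.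
It is proved for an arbitrary abelian variety that `𝔩` contains `𝔪` (`mm_L0`) and the homotheties (`half_mm`): the commutators in
`𝔪` lift to pure elements of `𝔩`, and for a central element `Z` of `𝔪` there is `(Z + x/2, 0, x, x s)` in `𝔩`; as the eigenvalues
of `Z` are imaginary and `x` is rational, the algebraic Lie algebra of the group of `T` contains both parts (`hull`, a form of the
theorem of Chevalley on the algebraic hull of a semisimple element). The homotheties are obtained from a derivation with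
`D(2πi) ≠ 0`.
-/

set_option autoImplicit false

open Matrix Pool.Agent.Y102 Pool.Agent.W516.DR Pool.Agent.H204R3.GP

noncomputable section

namespace Pool.Agent.Results.MP_5d33ca_ag.KugaSatakeOneMotives

/-- The rows (Betti side): the `2g` cycles of `A`, lifted to `G`, the circles of the torus, and the paths from `0` to the
points of `G`. The columns (de Rham side) have the same indices. -/
abbrev Idx (g : ℕ) (R J : Type) : Type := (Fin (2 * g) ⊕ J) ⊕ R

variable {g : ℕ} {R : Type} [Fintype R] [DecidableEq R] {J : Type} [Fintype J] [DecidableEq J]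

/-- The block matrix `(X, z, 0; 0, μ, 0; Y, w, κ)`. -/
def block (X : Matrix (Fin (2 * g)) (Fin (2 * g)) ℂ) (z : Matrix (Fin (2 * g)) J ℂ) (μ : ℂ)
    (Y : Matrix R (Fin (2 * g)) ℂ) (w : Matrix R J ℂ) (κ : ℂ) : Matrix (Idx g R J) (Idx g R J) ℂ :=
  fromBlocks (fromBlocks X z 0 (μ • 1)) 0 (fromCols Y w) (κ • 1)

/-- The index set `Fin (2 * g)` of the de Rham basis of `A`: first the `g` differentials `d z_k` of the first kind, then the
`g` differentials `d (∂_k log θ₀)` of the second kind. -/
def split (g : ℕ) : Fin (2 * g) ≃ Fin g ⊕ Fin g := (finCongr (two_mul g)).trans finSumFinEquiv.symm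

variable (A : AbVar g)

/-- The period matrix of `A`. -/
def abelianPeriods : Matrix (Fin (2 * g)) (Fin (2 * g)) ℂ :=
  Matrix.of fun i j => Sum.elim (fun k => A.lam i k) (fun k => A.η i k) (split g j)

/-- The periods of the differentials of the third kind. -/
def thirdPeriods (q f : J → Fin g → ℂ) : Matrix (Fin (2 * g)) J ℂ :=
  Matrix.of fun i j => ∑ k, (f j k * A.lam i k - A.η i k * q j k)

/-- The period matrix of `M`. -/
def periodMatrix (u e : R → Fin g → ℂ) (q f : J → Fin g → ℂ) (L : Matrix R J ℂ) : Matrix (Idx g R J) (Idx g R J) ℂ :=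
  block (abelianPeriods A) (thirdPeriods A q f) (2 * Real.pi * Complex.I)
    (Matrix.of fun r j => Sum.elim (u r) (e r) (split g j)) L 1

/-- The Riemann form on `H_1(A, ℂ)`, in the basis `lam`. -/
def riemann (v w : Fin (2 * g) → ℂ) : ℂ :=
  ∑ a, ∑ b, v a * w b * ((∑ k, (A.η a k * A.lam b k - A.η b k * A.lam a k)) / (2 * Real.pi * Complex.I))

/-- The columns `γ ↦ ω(Z_j, γ)`, for the cycles `γ` of the basis. -/
def columns (Z : J → Fin (2 * g) → ℂ) : Matrix (Fin (2 * g)) J ℂ := Matrix.of fun i j => riemann A (Z j) (Pi.single i 1)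

/-- The lattice of periods of `A`. -/
def lattice : Submodule ℤ (Fin g → ℂ) := Submodule.span ℤ (Set.range A.lam)

/-- The inverse image in `ℂ^g` of `A(F)`. -/
def points (F : IntermediateField ℚ ℂ) : Set (Fin g → ℂ) := {z | ∃ i, A.θ i z ≠ 0 ∧ ∀ j, A.θ j z / A.θ i z ∈ F}

/-- `A`, with its embedding and its endomorphisms, is defined over the number field `F`. -/
structure DefinedOver (F : IntermediateField ℚ ℂ) : Prop where
  numberField : FiniteDimensional ℚ F
  /-- the invariant differentials `d z_k` are defined over `F` -/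
  differentials : ∀ k i j, ∃ a : Fin (A.N + 1) → Fin (A.N + 1) → ℂ, (∀ p q, a p q ∈ F) ∧
    ∀ z, A.θ i z * pd k (A.θ j) z - A.θ j z * pd k (A.θ i) z = ∑ p, ∑ q, a p q * (A.θ p z * A.θ q z)
  /-- the sum of two points over `F` is a point over `F` -/
  add : ∀ z ∈ points A F, ∀ w ∈ points A F, z + w ∈ points A F
  /-- the endomorphisms are defined over `F` -/
  endo : ∀ Q : (Fin g → ℂ) →ₗ[ℂ] (Fin g → ℂ), (∀ w ∈ lattice A, Q w ∈ lattice A) → ∀ z ∈ points A F, Q z ∈ points A F
  /-- the endomorphisms (with matrix `m` for the basis `lam` of the lattice) act on the de Rham cohomology by matrices with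
  algebraic entries -/
  deRham : ∀ (Q : (Fin g → ℂ) →ₗ[ℂ] (Fin g → ℂ)) (m : Matrix (Fin (2 * g)) (Fin (2 * g)) ℤ),
    (∀ j, Q (A.lam j) = ∑ i, (m j i : ℂ) • A.lam i) → ∃ b : Matrix (Fin (2 * g)) (Fin (2 * g)) ℂ,
      (∀ i j, IsAlgebraic ℚ (b i j)) ∧ m.map (Int.cast : ℤ → ℂ) * abelianPeriods A = abelianPeriods A * b

/-- The family `(Y, Z)` of elements of `H_1(A, ℂ)` satisfies all relations `∑ E_r Y_r + ∑ E'_j Z_j = 0` with `E_r, E'_j ∈ End A`
and `∑ E_r P_r + ∑ E'_j Q_j = 0` (`m` are the matrices of the endomorphisms for the basis `lam` of the lattice). -/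
def IsRelated (u : R → Fin g → ℂ) (q : J → Fin g → ℂ) (Y : R → Fin (2 * g) → ℂ) (Z : J → Fin (2 * g) → ℂ) : Prop :=
  ∀ (E : R ⊕ J → (Fin g → ℂ) →ₗ[ℂ] (Fin g → ℂ)) (m : R ⊕ J → Matrix (Fin (2 * g)) (Fin (2 * g)) ℤ),
    (∀ s j, E s (A.lam j) = ∑ i, (m s j i : ℂ) • A.lam i) → ∑ s, E s (Sum.elim u q s) ∈ lattice A →
      ∀ i, ∑ s, ∑ j, Sum.elim Y Z s j * (m s j i : ℂ) = 0

/-- The complex span of the commutators `ω(Z'_j, Y_r) - ω(Z_j, Y'_r)`, for rational families `(Y, Z)`, `(Y', Z')` which satisfy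
the relations. -/
def commutators (u : R → Fin g → ℂ) (q : J → Fin g → ℂ) : Submodule ℂ (Matrix R J ℂ) :=
  Submodule.span ℂ {c | ∃ (Y Y' : R → Fin (2 * g) → ℚ) (Z Z' : J → Fin (2 * g) → ℚ),
    IsRelated A u q (fun r a => Y r a) (fun j a => Z j a) ∧ IsRelated A u q (fun r a => Y' r a) (fun j a => Z' j a) ∧
    c = Matrix.of fun r j =>
      riemann A (fun a => Z' j a) (fun a => Y r a) - riemann A (fun a => Z j a) (fun a => Y' r a)}

/-- The coordinates in `H_1(A, ℂ)` of the vectors `(u_r, e_r)`: the rows `y_r` with `y_r (abelianPeriods A) = (u_r, e_r)`. -/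
def coordinates {S : Type} (u e : S → Fin g → ℂ) : S → Fin (2 * g) → ℂ :=
  fun r => (fun j => Sum.elim (u r) (e r) (split g j)) ᵥ* (abelianPeriods A)⁻¹

/-- The numbers `ℓ_{rj}`: the part of weight `-2` of the logarithm of the period matrix, times `2πi`. -/
def logarithm (u e : R → Fin g → ℂ) (q f : J → Fin g → ℂ) (L : Matrix R J ℂ) : Matrix R J ℂ :=
  Matrix.of fun r j => L r j - (1 / 2) * ∑ k, (f j k * u r k - e r k * q j k)

/-- The sum of the `χ_{rj} w_{rj}`. -/
def pairing (χ : Matrix R J ℤ) (w : Matrix R J ℂ) : ℂ := ∑ r, ∑ j, (χ r j : ℂ) * w r j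

/-- The integral matrices which are zero on the commutators. -/
def IsCentral (u : R → Fin g → ℂ) (q : J → Fin g → ℂ) (χ : Matrix R J ℤ) : Prop :=
  ∀ c ∈ commutators A u q, pairing χ c = 0

/-- The multilinear forms in `2m` variables in the rational homology. -/
abbrev Form (m : ℕ) : Type := MultilinearMap ℚ (fun _ : Fin m × Fin 2 => A.H1) ℚ

/-- `φ` is a de Rham-Betti class in `H^1(A) ^ {⊗ 2m} (m)`. -/
def IsDRB {m : ℕ} (φ : Form A m) : Prop :=
  IsDeRhamBettiForm QBar A.dR (2 * Real.pi * Complex.I) m φ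

/-- `φ` is a Hodge class in `H^1(A) ^ {⊗ 2m} (m)`. -/
def IsHodge {m : ℕ} (φ : Form A m) : Prop := IsHodgeTensor (A.per : A.H1 →+ (Fin g → ℂ)) φ

/-- The endomorphism `X` annihilates the form `φ` (as a derivation). -/
def Annihilates {m : ℕ} (X : Module.End ℚ A.H1) (φ : Form A m) : Prop :=
  ∀ v, ∑ k, φ (Function.update v k (X (v k))) = 0

/-- `X` is in the Lie algebra `𝔤`: it annihilates all classes that are Hodge classes and de Rham-Betti classes. -/
def InLie (X : Module.End ℚ A.H1) : Prop :=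
  ∀ (m : ℕ) (φ : Form A m), IsHodge A φ → IsDRB A φ → Annihilates A X φ

/-- The complex matrices acting (from the right) on the rows in `H_1(A, ℂ)`, for the basis `lam` of the lattice. -/
abbrev EndC (_ : AbVar g) : Type := Matrix (Fin (2 * g)) (Fin (2 * g)) ℂ

/-- The matrix of an endomorphism of `H_1(A, ℚ)`: its rows are the images of the basis vectors. -/
def rowMatrix (X : Module.End ℚ A.H1) : EndC A := Matrix.of fun i j => ((X (Pi.single i 1) j : ℚ) : ℂ)

/-- The complex Lie algebra `𝔤 ⊗ ℂ`. -/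
def lieC : Submodule ℂ (EndC A) := Submodule.span ℂ {Y | ∃ X, InLie A X ∧ Y = rowMatrix A X}

/-- The `E i` are the generators of a Clifford algebra acting on `H_1(A, ℂ)`. -/
def Clifford {N : ℕ} (E : Fin N → EndC A) : Prop :=
  (∀ i, E i * E i = 1) ∧ ∀ i j, i ≠ j → E i * E j = -(E j * E i)

/-- Every colour `σ` is the colour `c j` of exactly `r` of the `j`. -/
def Uniform {N k : ℕ} (c : Fin N → Fin k) (r : ℕ) : Prop :=
  ∀ σ, (Finset.univ.filter fun j => c j = σ).card = r

/-- The Lie algebra `𝔤 ⊗ ℂ` is a sum of `k` orthogonal Lie algebras `so(r)`, acting by spin representations, and `r` is at least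
three and not five. -/
def TypeSpin : Prop :=
  ∃ (N k r : ℕ) (E : Fin N → EndC A) (c : Fin N → Fin k), 3 ≤ r ∧ r ≠ 5 ∧ Clifford A E ∧
    Uniform c r ∧ lieC A = Submodule.span ℂ {Y | ∃ i j, i ≠ j ∧ c i = c j ∧ Y = E i * E j}

/-- The Lie algebra given by a set `S` of pairs `(χ, n)`: all block matrices `(X, z, 0; 0, μ, 0; Y, w, 0)` such that `X - μ / 2` is
in `𝔤 ⊗ ℂ`, `z` is `columns A Z`, `(Y, Z)` satisfies the relations and `∑ χ_{rj} w_{rj} = n μ` for all `(χ, n)` in `S`. -/
def motivicLie (u : R → Fin g → ℂ) (q : J → Fin g → ℂ) (S : Set (Matrix R J ℤ × ℤ)) :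
    Set (Matrix (Idx g R J) (Idx g R J) ℂ) :=
  {W | ∃ X Z μ Y w, X - (μ / 2) • 1 ∈ lieC A ∧ IsRelated A u q Y Z ∧
    (∀ s ∈ S, pairing s.1 w = s.2 * μ) ∧ W = block X (columns A Z) μ (Matrix.of Y) w 0}

variable {B : Type} [Fintype B] [DecidableEq B]

/-- `T` is the set of the complex points of a subtorsor over the algebraic numbers: a set of invertible matrices, closed
under `x y⁻¹ z`, defined by polynomials with algebraic coefficients. -/
def IsTorsor (T : Set (Matrix B B ℂ)) : Prop :=
  (∀ x ∈ T, ∀ y ∈ T, ∀ z ∈ T, x * y⁻¹ * z ∈ T) ∧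
  ∃ I : Set (MvPolynomial (B × B) ℂ), (∀ p ∈ I, ∀ m, IsAlgebraic ℚ (p.coeff m)) ∧
    ∀ x : Matrix B B ℂ, x ∈ T ↔ IsUnit x ∧ ∀ p ∈ I, MvPolynomial.eval (fun b => x b.1 b.2) p = 0

/-- The group of the matrices `x y⁻¹`, `x, y ∈ T`, is defined by polynomials with rational coefficients. -/
def GroupOverQ (T : Set (Matrix B B ℂ)) : Prop :=
  ∃ I : Set (MvPolynomial (B × B) ℂ), (∀ p ∈ I, ∀ m, ∃ q : ℚ, p.coeff m = q) ∧
    ∀ g : Matrix B B ℂ, (∃ x ∈ T, ∃ y ∈ T, g = x * y⁻¹) ↔ IsUnit g ∧
      ∀ p ∈ I, MvPolynomial.eval (fun b => g b.1 b.2) p = 0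

theorem entry_eq (a b : Fin (2 * g)) : (∑ k, (A.η a k * A.lam b k - A.η b k * A.lam a k)) / (2 * Real.pi * Complex.I) =
    ((A.om (A.bas a) (A.bas b) : ℚ) : ℂ) := by
  rw [A.om_pairing]
  simp only [A.eta_bas, A.per_bas]

theorem columns_eq (Z : J → Fin (2 * g) → ℂ) :
    columns A Z = Pool.Agent.X306.AV.tz A (Matrix.of fun j a => Z j a) := by
  ext i j
  change ∑ a, ∑ b, Z j a * (Pi.single i 1 : Fin (2 * g) → ℂ) b * _ = ∑ a, Z j a * ((A.om (A.bas a) (A.bas i) : ℚ) : ℂ)
  refine Finset.sum_congr rfl fun a _ => ?_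
  rw [Finset.sum_eq_single i]
  · rw [Pi.single_eq_same, mul_one, entry_eq]
  · intro b _ hb
    rw [Pi.single_eq_of_ne hb, mul_zero, zero_mul]
  · intro h
    exact absurd (Finset.mem_univ _) h

theorem riemann_rat (v w : Fin (2 * g) → ℚ) :
    riemann A (fun a => (v a : ℂ)) (fun a => (w a : ℂ)) = ((A.om v w : ℚ) : ℂ) := by
  unfold riemann
  have h1 : ∀ w : Fin (2 * g) → ℚ, w = ∑ a, w a • A.bas a := by
    intro w
    conv_lhs => rw [← A.bas.sum_repr w]
    rfl
  have h2 : A.om v w = ∑ a, ∑ b, v a * (w b * A.om (A.bas a) (A.bas b)) := by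
    conv_lhs => rw [h1 v]
    rw [map_sum, LinearMap.sum_apply]
    refine Finset.sum_congr rfl fun a _ => ?_
    rw [map_smul, LinearMap.smul_apply]
    conv_lhs => rw [h1 w]
    rw [map_sum, smul_eq_mul, Finset.mul_sum]
    refine Finset.sum_congr rfl fun b _ => ?_
    rw [map_smul, smul_eq_mul]
  rw [h2, Rat.cast_sum]
  refine Finset.sum_congr rfl fun a _ => ?_
  rw [Rat.cast_sum]
  refine Finset.sum_congr rfl fun b _ => ?_
  rw [entry_eq, Rat.cast_mul, Rat.cast_mul]
  ring

theorem rel_iff (u : R → Fin g → ℂ) (q : J → Fin g → ℂ) (Y : R → Fin (2 * g) → ℂ) (Z : J → Fin (2 * g) → ℂ) :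
    IsRelated A u q Y Z ↔ Pool.Agent.X306.AV.RelN A u q (Sum.elim Y Z) := Iff.rfl

theorem commutators_eq (u : R → Fin g → ℂ) (q : J → Fin g → ℂ) :
    commutators A u q = Pool.Agent.X306.AV.CmS A u q := by
  have hcast : ∀ (Y : R → Fin (2 * g) → ℚ) (Z : J → Fin (2 * g) → ℚ),
      (Sum.elim (fun r a => ((Y r a : ℚ) : ℂ)) (fun j a => ((Z j a : ℚ) : ℂ)) : R ⊕ J → Fin (2 * g) → ℂ) =
      fun s a => ((Sum.elim Y Z s a : ℚ) : ℂ) := by
    intro Y Z
    funext s a
    rcases s with s | s <;> rfl
  unfold commutators Pool.Agent.X306.AV.CmS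
  congr 1
  ext c
  constructor
  · rintro ⟨Y, Y', Z, Z', h, h', rfl⟩
    refine ⟨Sum.elim Y Z, Sum.elim Y' Z', ?_, ?_, ?_⟩
    · rw [← hcast]
      exact h
    · rw [← hcast]
      exact h'
    · ext r j
      change riemann A _ _ - riemann A _ _ = ((A.om (Z' j) (Y r) - A.om (Z j) (Y' r) : ℚ) : ℂ)
      rw [riemann_rat, riemann_rat, Rat.cast_sub]
  · rintro ⟨N, N', h, h', rfl⟩
    refine ⟨fun r => N (Sum.inl r), fun r => N' (Sum.inl r), fun j => N (Sum.inr j), fun j => N' (Sum.inr j), ?_, ?_, ?_⟩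
    · rw [rel_iff, hcast]
      refine (congrArg (Pool.Agent.X306.AV.RelN A u q) ?_).mp h
      funext s a
      rcases s with s | s <;> rfl
    · rw [rel_iff, hcast]
      refine (congrArg (Pool.Agent.X306.AV.RelN A u q) ?_).mp h'
      funext s a
      rcases s with s | s <;> rfl
    · ext r j
      change ((A.om (N' (Sum.inr j)) (N (Sum.inl r)) - A.om (N (Sum.inr j)) (N' (Sum.inl r)) : ℚ) : ℂ) =
        riemann A _ _ - riemann A _ _
      rw [riemann_rat, riemann_rat, Rat.cast_sub]

theorem PA_eq : abelianPeriods A = Pool.Agent.X306.AV.PA A := by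
  ext i j
  change Sum.elim (fun k => A.lam i k) (fun k => A.η i k) (split g j) = A.dR (split g j) (A.bas i)
  rcases split g j with k | k
  · change A.lam i k = A.per (A.bas i) k
    rw [A.per_bas]
  · change A.η i k = A.eta (A.bas i) k
    rw [A.eta_bas]

theorem coordinates_eq (u e : R → Fin g → ℂ) (q f : J → Fin g → ℂ) :
    Sum.elim (coordinates A u e) (coordinates A q f) = Pool.Agent.X306.AV.Nm A u e q f := by
  funext s
  rcases s with r | j
  · change (fun j => Sum.elim (u r) (e r) (split g j)) ᵥ* (abelianPeriods A)⁻¹ = _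
    rw [PA_eq]
    rfl
  · change (fun i => Sum.elim (q j) (f j) (split g i)) ᵥ* (abelianPeriods A)⁻¹ = _
    rw [PA_eq]
    rfl

theorem logarithm_eq (u e : R → Fin g → ℂ) (q f : J → Fin g → ℂ) (L : Matrix R J ℂ) :
    logarithm u e q f L = Pool.Agent.X306.AV.ell A u e q f L := by
  have h1 : (2 * Real.pi * Complex.I : ℂ) • (Pool.Agent.X306.AV.yM (Pool.Agent.X306.AV.Nm A u e q f) *
      Pool.Agent.X306.AV.tz A (Pool.Agent.X306.AV.zM (Pool.Agent.X306.AV.Nm A u e q f))) =
      (Matrix.of fun r s => Pool.Agent.X306.AV.UU (u r) (e r) ((Pool.Agent.X306.AV.eqv g).symm s)) *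
        Pool.Agent.X306.AV.sw
          (Matrix.of fun j s => Pool.Agent.X306.AV.UU (q j) (f j) ((Pool.Agent.X306.AV.eqv g).symm s)) := by
    rw [← Pool.Agent.X306.AV.yM_PA (A := A) (q := q) (f := f), ← Pool.Agent.X306.AV.zM_PA (A := A) (u := u) (e := e),
      Matrix.mul_assoc, Pool.Agent.X306.AV.PA_sw, Matrix.mul_smul]
  ext r j
  have h2 := congrFun (congrFun h1 r) j
  rw [Matrix.smul_apply, smul_eq_mul, Matrix.mul_apply (M := Matrix.of fun r s => Pool.Agent.X306.AV.UU (u r) (e r)
    ((Pool.Agent.X306.AV.eqv g).symm s)), Pool.Agent.X306.AV.sum_eqv] at h2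
  have h3 : ∑ k, (f j k * u r k - e r k * q j k) = ∑ k, (Matrix.of fun r s => Pool.Agent.X306.AV.UU (u r) (e r)
      ((Pool.Agent.X306.AV.eqv g).symm s)) r (Pool.Agent.X306.AV.eqv g (Sum.inl k)) * Pool.Agent.X306.AV.sw
      (Matrix.of fun j s => Pool.Agent.X306.AV.UU (q j) (f j) ((Pool.Agent.X306.AV.eqv g).symm s))
        (Pool.Agent.X306.AV.eqv g (Sum.inl k)) j + ∑ k, (Matrix.of fun r s => Pool.Agent.X306.AV.UU (u r) (e r)
      ((Pool.Agent.X306.AV.eqv g).symm s)) r (Pool.Agent.X306.AV.eqv g (Sum.inr k)) * Pool.Agent.X306.AV.sw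
      (Matrix.of fun j s => Pool.Agent.X306.AV.UU (q j) (f j) ((Pool.Agent.X306.AV.eqv g).symm s))
        (Pool.Agent.X306.AV.eqv g (Sum.inr k)) j := by
    rw [← Finset.sum_add_distrib]
    refine Finset.sum_congr rfl fun k _ => ?_
    simp only [Pool.Agent.X306.AV.sw, Matrix.of_apply, Equiv.symm_apply_apply, Sum.elim_inl, Sum.elim_inr,
      Pool.Agent.X306.AV.UU]
    ring
  change L r j - (1 / 2) * ∑ k, (f j k * u r k - e r k * q j k) = L r j - ((2 * Real.pi * Complex.I) / 2) * _
  rw [h3, ← h2]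
  ring

/-- **1-motives whose abelian part is of spin type.** `A` is an abelian variety over the algebraic numbers, defined over the number
field `F` together with its endomorphisms, of spin type; the `u r` and `q j` are logarithms of arbitrary points `P_r`, `Q_j` of
`A(F)`, the vectors `(u r, e r)` and `(q j, f j)` are normalised: they satisfy the relations of the points. Let `T` be a subtorsor
over the algebraic numbers which contains the period matrix and whose group is defined over `ℚ`. -/
theorem result (A : AbVar g) (hA : TypeSpin A)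
    (F : IntermediateField ℚ ℂ) (hF : DefinedOver A F) (u e : R → Fin g → ℂ)
    (hu : ∀ r, u r ∈ points A F) (q f : J → Fin g → ℂ) (hq : ∀ j, q j ∈ points A F)
    (hn : IsRelated A u q (coordinates A u e) (coordinates A q f)) (L : Matrix R J ℂ)
    (T : Set (Matrix (Idx g R J) (Idx g R J) ℂ)) (hT : IsTorsor T) (hG : GroupOverQ T)
    (hc : periodMatrix A u e q f L ∈ T) :
    -- 1: arbitrary `L`
    (∀ W ∈ motivicLie A u q {s | IsCentral A u q s.1 ∧
        IsAlgebraic ℚ (pairing s.1 (logarithm u e q f L) - (s.2 : ℂ) * (2 * Real.pi * Complex.I))},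
      ∀ x ∈ T, NormedSpace.exp W * x ∈ T) ∧
    -- 2: the 1-motives over the algebraic numbers
    ((∀ χ, IsCentral A u q χ → IsAlgebraic ℚ (Complex.exp (pairing χ (logarithm u e q f L)))) →
      ∀ W ∈ motivicLie A u q {s | IsCentral A u q s.1 ∧
        pairing s.1 (logarithm u e q f L) = (s.2 : ℂ) * (2 * Real.pi * Complex.I)},
      ∀ x ∈ T, NormedSpace.exp W * x ∈ T) := by
  have hT' : Pool.Agent.TH127.PT.IsSubtorsor Pool.Agent.W245.EB.QB T := by
    obtain ⟨h1, I, h2, h3⟩ := hT
    exact ⟨fun x hx => ((h3 x).1 hx).1, h1, I, fun p hp m => Pool.Agent.W245.EB.mem_QB.2 (h2 p hp m), h3⟩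
  have hG' : Pool.Agent.X306.RL.GDef Pool.Agent.X306.EM.QQ T := by
    obtain ⟨I, hI1, hI2⟩ := hG
    exact ⟨I, fun p hp m => by
      obtain ⟨q, hq⟩ := hI1 p hp m
      exact Pool.Agent.X306.EM.mem_QQ.2 ⟨q, hq.symm⟩, hI2⟩
  have hblock : ∀ X z μ Y w κ, block (g := g) (R := R) (J := J) X z μ Y w κ =
      Pool.Agent.X306.AV.sm (X, z, μ, Y, w) κ := fun X z μ Y w κ => rfl
  have hthird : thirdPeriods A q f = Pool.Agent.X306.AV.PA A * Pool.Agent.X306.AV.sw
      (Matrix.of fun j s => Pool.Agent.X306.AV.UU (q j) (f j) ((Pool.Agent.X306.AV.eqv g).symm s)) := by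
    ext i j
    rw [Matrix.mul_apply, Pool.Agent.X306.AV.sum_eqv]
    change ∑ k, (f j k * A.lam i k - A.η i k * q j k) =
      ∑ k, Pool.Agent.X306.AV.PA A i (Pool.Agent.X306.AV.eqv g (Sum.inl k)) * Sum.elim
        (fun k => Pool.Agent.X306.AV.UU (q j) (f j) ((Pool.Agent.X306.AV.eqv g).symm (Pool.Agent.X306.AV.eqv g (Sum.inr k))))
        (fun k => -Pool.Agent.X306.AV.UU (q j) (f j) ((Pool.Agent.X306.AV.eqv g).symm (Pool.Agent.X306.AV.eqv g (Sum.inl k))))
        ((Pool.Agent.X306.AV.eqv g).symm (Pool.Agent.X306.AV.eqv g (Sum.inl k))) +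
      ∑ k, Pool.Agent.X306.AV.PA A i (Pool.Agent.X306.AV.eqv g (Sum.inr k)) * Sum.elim
        (fun k => Pool.Agent.X306.AV.UU (q j) (f j) ((Pool.Agent.X306.AV.eqv g).symm (Pool.Agent.X306.AV.eqv g (Sum.inr k))))
        (fun k => -Pool.Agent.X306.AV.UU (q j) (f j) ((Pool.Agent.X306.AV.eqv g).symm (Pool.Agent.X306.AV.eqv g (Sum.inl k))))
        ((Pool.Agent.X306.AV.eqv g).symm (Pool.Agent.X306.AV.eqv g (Sum.inr k)))
    simp only [Equiv.symm_apply_apply, Sum.elim_inl, Sum.elim_inr, Pool.Agent.X306.AV.PA_inl,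
      Pool.Agent.X306.AV.PA_inr, A.per_bas, A.eta_bas, Pool.Agent.X306.AV.UU]
    rw [← Finset.sum_add_distrib]
    refine Finset.sum_congr rfl fun k _ => ?_
    ring
  have hpm : periodMatrix A u e q f L = Pool.Agent.X306.AV.sm (Pool.Agent.X306.AV.prS u e q f L A) 1 := by
    unfold periodMatrix
    rw [hblock, PA_eq, hthird]
    rfl
  rw [hpm] at hc
  have hn' : Pool.Agent.X306.AV.RelN A u q (Pool.Agent.X306.AV.Nm A u e q f) := by
    rw [← coordinates_eq]
    exact (rel_iff A u q _ _).1 hn
  have hE : Pool.Agent.X306.AV.EndAlg A := by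
    rintro m ⟨Q, hQ⟩
    obtain ⟨b, hb, h1⟩ := hF.deRham Q m hQ
    rw [PA_eq] at h1
    exact ⟨b, hb, h1⟩
  have hF' : Pool.Agent.X306.AV.Fld A F := ⟨hF.numberField, hF.differentials, hF.add, hF.endo⟩
  have hNA : A.NA ≤ Pool.Agent.X306.AV.L0 (Pool.Agent.X306.AV.gR A u q T) := by
    obtain ⟨N, k, r, E, c, h3, h5, ⟨e1, e2⟩, hcc, hl⟩ := hA
    exact Pool.Agent.X306.AV.NA_L0_of_spin hT' hG' hc hF' hu hq hE hn' h3 h5 e1 e2 hcc hl
  have main : ∀ W ∈ motivicLie A u q {s | IsCentral A u q s.1 ∧
        IsAlgebraic ℚ (pairing s.1 (logarithm u e q f L) - (s.2 : ℂ) * (2 * Real.pi * Complex.I))},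
      ∀ x ∈ T, NormedSpace.exp W * x ∈ T := by
    rintro _ ⟨X, Z, μ, Y, w, hX, hYZ, hw, rfl⟩ x hx
    have h1 := Pool.Agent.X306.AV.mainLie hT' hG' hc hF' hu hq hE hn' hNA (X := X) (μ := μ) hX
      ((rel_iff A u q Y Z).1 hYZ) (w := w) (fun χ h1 n h2 => by
        refine hw (χ, n) ⟨fun c hc' => h1 c (by rwa [commutators_eq] at hc'), ?_⟩
        rw [logarithm_eq A]
        exact h2) hx
    rw [hblock, columns_eq]
    exact h1
  refine ⟨main, ?_⟩
  rintro halg _ ⟨X, Z, μ, Y, w, hX, hYZ, hw, rfl⟩ x hx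
  refine main _ ⟨X, Z, μ, Y, w, hX, hYZ, fun s hs => hw s ⟨hs.1, ?_⟩, rfl⟩ x hx
  have h1 : Complex.exp (pairing s.1 (logarithm u e q f L) - (s.2 : ℂ) * (2 * Real.pi * Complex.I)) =
      Complex.exp (pairing s.1 (logarithm u e q f L)) := by
    rw [Complex.exp_sub, Complex.exp_int_mul_two_pi_mul_I, div_one]
  by_contra hne
  refine Pool.Agent.H340R2.LW.transcendental_cexp _ hs.2 (sub_ne_zero.2 hne) ?_
  rw [h1]
  exact halg s.1 hs.1

end Pool.Agent.Results.MP_5d33ca_ag.KugaSatakeOneMotives
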