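import Pool.Agent.X306.AV.TF

/-!
# 1-motives whose abelian part has maximal real multiplication: the de Rham-Betti torsor is motivic

Let `M = [ℤ^R → G]` be a 1-motive over the field `ℚ̄` of algebraic numbers, where `G` is an extension of an abelian variety `A`
by `𝔾ₘ^J`, given by points `Q_j ∈ A(ℚ̄)` (`j ∈ J`) with logarithms `q_j`, and the 1-motive is given by points `P̃_r ∈ G(ℚ̄)`
(`r ∈ R`) over points `P_r ∈ A(ℚ̄)` with logarithms `u_r`. Every 1-motive over `ℚ̄` has this form. As in `AllOneMotives` the abelian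
variety `A`, of dimension `g`, is given by theta functions (`AbVar`, `Pool.Agent.Y102.AVDefs`), and the periods of `M` are the
entries of the matrix `periodMatrix` with the rows

* `(λ_{ik} | η_{ik} | ∑_k (f_{jk} λ_{ik} - η_{ik} q_{jk}) | 0)` for a suitable lift to `G` of the cycle `i` of `A`;
* `(0 | 0 | 2πi δ_{jj'} | 0)` for the circles of the torus;
* `(u_{rk} | e_{rk} | L_{rj} | δ_{rr'})` for a path from `0` to `P̃_r` in `G`,

and the columns: the differentials of the first kind `dz_k`, of the second kind `d (∂_k log θ₀)`, of the third kind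
`d log (θ₀(z - q_j) / θ₀(z)) + ∑_k f_{jk} dz_k`, and the differentials of degree zero. The points `P_r`, `Q_j` can be arbitrary; if
they satisfy relations, the paths and the differentials are normalised in such a way that the vectors `(u_r, e_r)`, `(q_j, f_j)`
satisfy the same relations (hypothesis `hn`, see `AllOneMotives`).

**The hypothesis on `A`.** `MaximalRM`: there are `g` commuting endomorphisms of `A` which are linearly independent and symmetric
for the polarization. These are the abelian varieties over `ℚ̄` whose simple factors `B` have real multiplication by a field of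
degree `dim B`, or multiplication by a totally indefinite quaternion algebra over a totally real field of degree `dim B / 2`,
or complex multiplication (so products of elliptic curves, all non-CM abelian varieties of `GL(2)`-type, the Jacobians `J_1(N)`).
If there are factors with complex multiplication we need one of the following hypotheses; they are satisfied if there are none:

* `ImaginaryQuadraticCM`: the factors with complex multiplication are elliptic curves;
* `OnlyTrivialRelations`: the relations between the eigenvalues of the central skew-symmetric endomorphisms are trivial.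

**The Lie algebra of the motivic Galois group.** The motivic Galois group of a 1-motive is its Mumford-Tate group (Brylinski,
André), and the Mumford-Tate group of `A` is in our situation the group of the symplectic similitudes which commute with the
endomorphisms. With the structure of the unipotent radical (Ribet, Bertrand, Bertolin, Jossen, see `AllOneMotives`) one finds that
the Lie algebra of the motivic Galois group consists of the block matrices `(X, z, 0; 0, μ, 0; Y, w, 0)` such that

* `X` commutes with the endomorphisms of `A`, and `ω(vX, v') + ω(v, v'X) = μ ω(v, v')` for the Riemann form `ω`;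
* `z` consists of the columns `γ ↦ ω(Z_j, γ)`, and `(Y, Z)` satisfies all relations `∑ E_r P_r + ∑ E'_j Q_j = 0`,
`E_r, E'_j ∈ End A`;
* `∑ χ_{rj} w_{rj} = n μ` for all central `χ` with `∑ χ_{rj} ℓ_{rj} = 2πi n`, `n ∈ ℤ`. Here `ℓ` is the part of weight `-2` of the
logarithm of the period matrix, and an integral matrix `χ` is central if `∑ χ_{rj} c_{rj} = 0` for all commutators `c`. For central
`χ` the number `exp (∑ χ_{rj} ℓ_{rj})` is algebraic (it is the value of a section of a trivial line bundle at the point).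

This is `motivicLie` for the set of pairs `(χ, n)` as above.

**Theorem.** Let `T` be a `ℚ̄`-subtorsor of `Iso(M_dR, M_B)` which contains the period matrix and whose group (the matrices
`x y⁻¹`, `x, y ∈ T`) is defined over `ℚ`; for example the de Rham-Betti torsor of `M`, the smallest one. Then `T` is stable under
`exp W` for all `W` in the Lie algebra of the motivic Galois group (2). So `T` contains the torsor of motivic periods; in particular
`Ω^dRB(M) = Ω^mot(M)`, and every de Rham-Betti class of every motive in the tensor category generated by `M` is motivated. (1) is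
a statement for arbitrary complex numbers `L_{rj}`.

For example this holds for `H^1(C ∖ D, E)` and `H^1_c` for all curves `C` of genus one or two with decomposable Jacobian, all
modular curves, singular or not, and all finite sets of points `D`, `E` defined over `ℚ̄`. The pure case `M = H_1(A)` is known for
products of elliptic curves (Kreutz, Shen, Vial) and, in terms of de Rham-Betti classes, in `MaximalRealMult` of this
repository.

## The proof

Let `𝔤` be the Lie algebra of the rational elements of the Lie algebra of the group of `T` which commute with the endomorphisms and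
satisfy the relations. In `AllOneMotives` it is proved that it is a direct sum of its parts of the weights `0`, `-1`, `-2`, up to
a translation by `x s` in weight `-2` (`shapeO`). The part `𝔥` of weight zero, normalised to multiplier zero, acts semisimply and
its commutant is `End A ⊗ ℚ` by the theorem of Schneider and Lang. As in `MaximalRealMult` this implies that the derived algebra
of `𝔥` contains the part of the Lefschetz algebra without complex multiplication (`idem_span`), and derived elements lift to pure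
elements of `𝔤` (`lift_br`). For the centre one considers an element `ξ = (R + x/2, 0, x, x s)` of `𝔤` with a generic central
`R`. The eigenvalues of `R` are imaginary by the positivity of the Rosati involution and `x` is rational; so the relations
between the eigenvalues of `ξ` imply the relations between the eigenvalues of all central elements, and an algebraic Lie algebra
which contains the semisimple element `ξ` contains all elements with the same eigenvectors whose eigenvalues satisfy the relations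
(`hull`, a form of the theorem of Chevalley on the algebraic hull of a semisimple element). The part of weight `-2` is treated as
in `AllOneMotives`, and the elements of the Lie algebra of `T` can be exponentiated (`exp_mem_LL`).
-/

set_option autoImplicit false

open Matrix Pool.Agent.Y102

noncomputable section

namespace Pool.Agent.Results.MP_5d33ca_ag.RealMultOneMotives

/-- The rows (Betti side): the `2g` cycles of `A`, lifted to `G`, the circles of the torus, and the paths from `0` to the
points of `G`. The columns (de Rham side) have the same indices. -/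
abbrev Idx (g : ℕ) (R J : Type) : Type := (Fin (2 * g) ⊕ J) ⊕ R

variable {g : ℕ} {R : Type} [Fintype R] [DecidableEq R] {J : Type} [Fintype J] [DecidableEq J]

/-- The block matrix `(X, z, 0; 0, μ, 0; Y, w, κ)`. -/
def block (X : Matrix (Fin (2 * g)) (Fin (2 * g)) ℂ) (z : Matrix (Fin (2 * g)) J ℂ) (μ : ℂ)
    (Y : Matrix R (Fin (2 * g)) ℂ) (w : Matrix R J ℂ) (κ : ℂ) : Matrix (Idx g R J) (Idx g R J) ℂ :=
  fromBlocks (fromBlocks X z 0 (μ • 1)) 0 (fromCols Y w) (κ • 1)

/-- The index set `Fin (2 * g)` of the de Rham basis of `A`: first the `g` differentials `d z_k` of the first kind, then the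
`g` differentials `d (∂_k log θ₀)` of the second kind. -/
def split (g : ℕ) : Fin (2 * g) ≃ Fin g ⊕ Fin g := (finCongr (two_mul g)).trans finSumFinEquiv.symm

variable (A : AbVar g)

/-- The period matrix of `A`. -/
def abelianPeriods : Matrix (Fin (2 * g)) (Fin (2 * g)) ℂ :=
  Matrix.of fun i j => Sum.elim (fun k => A.lam i k) (fun k => A.η i k) (split g j)

/-- The periods of the differentials of the third kind. -/
def thirdPeriods (q f : J → Fin g → ℂ) : Matrix (Fin (2 * g)) J ℂ :=
  Matrix.of fun i j => ∑ k, (f j k * A.lam i k - A.η i k * q j k)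

/-- The period matrix of `M`. -/
def periodMatrix (u e : R → Fin g → ℂ) (q f : J → Fin g → ℂ) (L : Matrix R J ℂ) : Matrix (Idx g R J) (Idx g R J) ℂ :=
  block (abelianPeriods A) (thirdPeriods A q f) (2 * Real.pi * Complex.I)
    (Matrix.of fun r j => Sum.elim (u r) (e r) (split g j)) L 1

/-- The Riemann form on `H_1(A, ℂ)`, in the basis `lam`. -/
def riemann (v w : Fin (2 * g) → ℂ) : ℂ :=
  ∑ a, ∑ b, v a * w b * ((∑ k, (A.η a k * A.lam b k - A.η b k * A.lam a k)) / (2 * Real.pi * Complex.I))

/-- The columns `γ ↦ ω(Z_j, γ)`, for the cycles `γ` of the basis. -/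
def columns (Z : J → Fin (2 * g) → ℂ) : Matrix (Fin (2 * g)) J ℂ := Matrix.of fun i j => riemann A (Z j) (Pi.single i 1)

/-- The lattice of periods of `A`. -/
def lattice : Submodule ℤ (Fin g → ℂ) := Submodule.span ℤ (Set.range A.lam)

/-- The inverse image in `ℂ^g` of `A(F)`. -/
def points (F : IntermediateField ℚ ℂ) : Set (Fin g → ℂ) := {z | ∃ i, A.θ i z ≠ 0 ∧ ∀ j, A.θ j z / A.θ i z ∈ F}

/-- `A`, with its embedding and its endomorphisms, is defined over the number field `F`. -/
structure DefinedOver (F : IntermediateField ℚ ℂ) : Prop where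
  numberField : FiniteDimensional ℚ F
  /-- the invariant differentials `d z_k` are defined over `F` -/
  differentials : ∀ k i j, ∃ a : Fin (A.N + 1) → Fin (A.N + 1) → ℂ, (∀ p q, a p q ∈ F) ∧
    ∀ z, A.θ i z * pd k (A.θ j) z - A.θ j z * pd k (A.θ i) z = ∑ p, ∑ q, a p q * (A.θ p z * A.θ q z)
  /-- the sum of two points over `F` is a point over `F` -/
  add : ∀ z ∈ points A F, ∀ w ∈ points A F, z + w ∈ points A F
  /-- the endomorphisms are defined over `F` -/
  endo : ∀ Q : (Fin g → ℂ) →ₗ[ℂ] (Fin g → ℂ), (∀ w ∈ lattice A, Q w ∈ lattice A) → ∀ z ∈ points A F, Q z ∈ points A F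
  /-- the endomorphisms (with matrix `m` for the basis `lam` of the lattice) act on the de Rham cohomology by matrices with
  algebraic entries -/
  deRham : ∀ (Q : (Fin g → ℂ) →ₗ[ℂ] (Fin g → ℂ)) (m : Matrix (Fin (2 * g)) (Fin (2 * g)) ℤ),
    (∀ j, Q (A.lam j) = ∑ i, (m j i : ℂ) • A.lam i) → ∃ b : Matrix (Fin (2 * g)) (Fin (2 * g)) ℂ,
      (∀ i j, IsAlgebraic ℚ (b i j)) ∧ m.map (Int.cast : ℤ → ℂ) * abelianPeriods A = abelianPeriods A * b

/-- The family `(Y, Z)` of elements of `H_1(A, ℂ)` satisfies all relations `∑ E_r Y_r + ∑ E'_j Z_j = 0` with `E_r, E'_j ∈ End A`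
and `∑ E_r P_r + ∑ E'_j Q_j = 0` (`m` are the matrices of the endomorphisms for the basis `lam` of the lattice). -/
def IsRelated (u : R → Fin g → ℂ) (q : J → Fin g → ℂ) (Y : R → Fin (2 * g) → ℂ) (Z : J → Fin (2 * g) → ℂ) : Prop :=
  ∀ (E : R ⊕ J → (Fin g → ℂ) →ₗ[ℂ] (Fin g → ℂ)) (m : R ⊕ J → Matrix (Fin (2 * g)) (Fin (2 * g)) ℤ),
    (∀ s j, E s (A.lam j) = ∑ i, (m s j i : ℂ) • A.lam i) → ∑ s, E s (Sum.elim u q s) ∈ lattice A →
      ∀ i, ∑ s, ∑ j, Sum.elim Y Z s j * (m s j i : ℂ) = 0

/-- The complex span of the commutators `ω(Z'_j, Y_r) - ω(Z_j, Y'_r)`, for rational families `(Y, Z)`, `(Y', Z')` which satisfy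
the relations. -/
def commutators (u : R → Fin g → ℂ) (q : J → Fin g → ℂ) : Submodule ℂ (Matrix R J ℂ) :=
  Submodule.span ℂ {c | ∃ (Y Y' : R → Fin (2 * g) → ℚ) (Z Z' : J → Fin (2 * g) → ℚ),
    IsRelated A u q (fun r a => Y r a) (fun j a => Z j a) ∧ IsRelated A u q (fun r a => Y' r a) (fun j a => Z' j a) ∧
    c = Matrix.of fun r j =>
      riemann A (fun a => Z' j a) (fun a => Y r a) - riemann A (fun a => Z j a) (fun a => Y' r a)}

/-- The coordinates in `H_1(A, ℂ)` of the vectors `(u_r, e_r)`: the rows `y_r` with `y_r (abelianPeriods A) = (u_r, e_r)`. -/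
def coordinates {S : Type} (u e : S → Fin g → ℂ) : S → Fin (2 * g) → ℂ :=
  fun r => (fun j => Sum.elim (u r) (e r) (split g j)) ᵥ* (abelianPeriods A)⁻¹

/-- The numbers `ℓ_{rj}`: the part of weight `-2` of the logarithm of the period matrix, times `2πi`. -/
def logarithm (u e : R → Fin g → ℂ) (q f : J → Fin g → ℂ) (L : Matrix R J ℂ) : Matrix R J ℂ :=
  Matrix.of fun r j => L r j - (1 / 2) * ∑ k, (f j k * u r k - e r k * q j k)

/-- The sum of the `χ_{rj} w_{rj}`. -/
def pairing (χ : Matrix R J ℤ) (w : Matrix R J ℂ) : ℂ := ∑ r, ∑ j, (χ r j : ℂ) * w r j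

/-- The integral matrices which are zero on the commutators. -/
def IsCentral (u : R → Fin g → ℂ) (q : J → Fin g → ℂ) (χ : Matrix R J ℤ) : Prop :=
  ∀ c ∈ commutators A u q, pairing χ c = 0

/-- The Lie algebra given by a set `S` of pairs `(χ, n)`: all block matrices `(X, z, 0; 0, μ, 0; Y, w, 0)` such that `X` commutes
with the endomorphisms of `A` and is a similitude of the Riemann form with multiplier `μ`, `z` is `columns A Z`, `(Y, Z)`
satisfies the relations and `∑ χ_{rj} w_{rj} = n μ` for all `(χ, n)` in `S`. -/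
def motivicLie (u : R → Fin g → ℂ) (q : J → Fin g → ℂ) (S : Set (Matrix R J ℤ × ℤ)) :
    Set (Matrix (Idx g R J) (Idx g R J) ℂ) :=
  {W | ∃ X Z μ Y w, (∀ (E : (Fin g → ℂ) →ₗ[ℂ] (Fin g → ℂ)) (m : Matrix (Fin (2 * g)) (Fin (2 * g)) ℤ),
      (∀ j, E (A.lam j) = ∑ i, (m j i : ℂ) • A.lam i) → m.map (Int.cast : ℤ → ℂ) * X = X * m.map (Int.cast : ℤ → ℂ)) ∧
    (∀ v v', riemann A (v ᵥ* X) v' + riemann A v (v' ᵥ* X) = μ * riemann A v v') ∧ IsRelated A u q Y Z ∧
    (∀ s ∈ S, pairing s.1 w = s.2 * μ) ∧ W = block X (columns A Z) μ (Matrix.of Y) w 0}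

/-- `P` is an endomorphism of `A`, up to isogeny: an endomorphism of the rational homology which extends to a complex linear
map of the tangent space. -/
def IsEndo (P : Module.End ℚ (Fin (2 * g) → ℚ)) : Prop := ∃ M : (Fin g → ℂ) →ₗ[ℂ] (Fin g → ℂ),
  ∀ w, M (∑ j, (w j : ℂ) • A.lam j) = ∑ j, ((P w) j : ℂ) • A.lam j

/-- The Riemann form on the rational homology. -/
def ratRiemann (v w : Fin (2 * g) → ℚ) : ℂ := riemann A (fun a => (v a : ℂ)) (fun a => (w a : ℂ))

/-- `A` has `g` commuting linearly independent symmetric endomorphisms. -/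
def MaximalRM : Prop := ∃ P : Fin g → Module.End ℚ (Fin (2 * g) → ℚ), (∀ i, IsEndo A (P i)) ∧
  (∀ i j, P i * P j = P j * P i) ∧ (∀ i v w, ratRiemann A (P i v) w = ratRiemann A v (P i w)) ∧ LinearIndependent ℚ P

/-- `X` is an element of the centre of the algebra of endomorphisms and is skew-symmetric. -/
def CentralSkew (X : Module.End ℚ (Fin (2 * g) → ℚ)) : Prop := IsEndo A X ∧
  (∀ Q, IsEndo A Q → X * Q = Q * X) ∧ ∀ v w, ratRiemann A (X v) w = -ratRiemann A v (X w)

/-- If `X` is central and skew-symmetric and all such endomorphisms are in the bicommutant of `X`, then the roots of the minimal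
polynomial of `X` satisfy only the relations `∑ n_z z = 0` with `n_z = n_{-z}`. -/
def OnlyTrivialRelations : Prop := ∀ X, CentralSkew A X →
  (∀ t : Module.End ℚ (Fin (2 * g) → ℚ), t * X = X * t → ∀ R, CentralSkew A R → t * R = R * t) →
  ∀ n : ℂ →₀ ℤ, (∀ z ∈ n.support, Polynomial.aeval z (minpoly ℚ X) = 0) → n.sum (fun z k => (k : ℂ) * z) = 0 →
    ∀ z, n z = n (-z)

/-- The central skew-symmetric endomorphisms are the linear combinations of endomorphisms `R j` with
`(R j) ^ 3 = - (d j) R j` and `(R i) (R j) = 0` for `i ≠ j`, for positive rational numbers `d j` in different classes modulo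
squares. -/
def ImaginaryQuadraticCM : Prop :=
  ∃ (r : ℕ) (R : Fin r → Module.End ℚ (Fin (2 * g) → ℚ)) (d : Fin r → ℚ),
    (∀ j, 0 < d j ∧ R j * R j * R j = -(d j • R j)) ∧
    (∀ i j, i ≠ j → R i * R j = 0 ∧ ¬ IsSquare (d i * d j)) ∧
    ∀ X, CentralSkew A X → X ∈ Submodule.span ℚ (Set.range R)

variable {B : Type} [Fintype B] [DecidableEq B]

/-- `T` is the set of the complex points of a subtorsor over the algebraic numbers: a set of invertible matrices, closed
under `x y⁻¹ z`, defined by polynomials with algebraic coefficients. -/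
def IsTorsor (T : Set (Matrix B B ℂ)) : Prop :=
  (∀ x ∈ T, ∀ y ∈ T, ∀ z ∈ T, x * y⁻¹ * z ∈ T) ∧
  ∃ I : Set (MvPolynomial (B × B) ℂ), (∀ p ∈ I, ∀ m, IsAlgebraic ℚ (p.coeff m)) ∧
    ∀ x : Matrix B B ℂ, x ∈ T ↔ IsUnit x ∧ ∀ p ∈ I, MvPolynomial.eval (fun b => x b.1 b.2) p = 0

/-- The group of the matrices `x y⁻¹`, `x, y ∈ T`, is defined by polynomials with rational coefficients. -/
def GroupOverQ (T : Set (Matrix B B ℂ)) : Prop :=
  ∃ I : Set (MvPolynomial (B × B) ℂ), (∀ p ∈ I, ∀ m, ∃ q : ℚ, p.coeff m = q) ∧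
    ∀ g : Matrix B B ℂ, (∃ x ∈ T, ∃ y ∈ T, g = x * y⁻¹) ↔ IsUnit g ∧
      ∀ p ∈ I, MvPolynomial.eval (fun b => g b.1 b.2) p = 0

theorem entry_eq (a b : Fin (2 * g)) : (∑ k, (A.η a k * A.lam b k - A.η b k * A.lam a k)) / (2 * Real.pi * Complex.I) =
    ((A.om (A.bas a) (A.bas b) : ℚ) : ℂ) := by
  rw [A.om_pairing]
  simp only [A.eta_bas, A.per_bas]

theorem columns_eq (Z : J → Fin (2 * g) → ℂ) :
    columns A Z = Pool.Agent.X306.AV.tz A (Matrix.of fun j a => Z j a) := by
  ext i j
  change ∑ a, ∑ b, Z j a * (Pi.single i 1 : Fin (2 * g) → ℂ) b * _ = ∑ a, Z j a * ((A.om (A.bas a) (A.bas i) : ℚ) : ℂ)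
  refine Finset.sum_congr rfl fun a _ => ?_
  rw [Finset.sum_eq_single i]
  · rw [Pi.single_eq_same, mul_one, entry_eq]
  · intro b _ hb
    rw [Pi.single_eq_of_ne hb, mul_zero, zero_mul]
  · intro h
    exact absurd (Finset.mem_univ _) h

theorem riemann_rat (v w : Fin (2 * g) → ℚ) :
    riemann A (fun a => (v a : ℂ)) (fun a => (w a : ℂ)) = ((A.om v w : ℚ) : ℂ) := by
  unfold riemann
  have h1 : ∀ w : Fin (2 * g) → ℚ, w = ∑ a, w a • A.bas a := by
    intro w
    conv_lhs => rw [← A.bas.sum_repr w]
    rfl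
  have h2 : A.om v w = ∑ a, ∑ b, v a * (w b * A.om (A.bas a) (A.bas b)) := by
    conv_lhs => rw [h1 v]
    rw [map_sum, LinearMap.sum_apply]
    refine Finset.sum_congr rfl fun a _ => ?_
    rw [map_smul, LinearMap.smul_apply]
    conv_lhs => rw [h1 w]
    rw [map_sum, smul_eq_mul, Finset.mul_sum]
    refine Finset.sum_congr rfl fun b _ => ?_
    rw [map_smul, smul_eq_mul]
  rw [h2, Rat.cast_sum]
  refine Finset.sum_congr rfl fun a _ => ?_
  rw [Rat.cast_sum]
  refine Finset.sum_congr rfl fun b _ => ?_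
  rw [entry_eq, Rat.cast_mul, Rat.cast_mul]
  ring

theorem rel_iff (u : R → Fin g → ℂ) (q : J → Fin g → ℂ) (Y : R → Fin (2 * g) → ℂ) (Z : J → Fin (2 * g) → ℂ) :
    IsRelated A u q Y Z ↔ Pool.Agent.X306.AV.RelN A u q (Sum.elim Y Z) := Iff.rfl

theorem commutators_eq (u : R → Fin g → ℂ) (q : J → Fin g → ℂ) :
    commutators A u q = Pool.Agent.X306.AV.CmS A u q := by
  have hcast : ∀ (Y : R → Fin (2 * g) → ℚ) (Z : J → Fin (2 * g) → ℚ),
      (Sum.elim (fun r a => ((Y r a : ℚ) : ℂ)) (fun j a => ((Z j a : ℚ) : ℂ)) : R ⊕ J → Fin (2 * g) → ℂ) =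
      fun s a => ((Sum.elim Y Z s a : ℚ) : ℂ) := by
    intro Y Z
    funext s a
    rcases s with s | s <;> rfl
  unfold commutators Pool.Agent.X306.AV.CmS
  congr 1
  ext c
  constructor
  · rintro ⟨Y, Y', Z, Z', h, h', rfl⟩
    refine ⟨Sum.elim Y Z, Sum.elim Y' Z', ?_, ?_, ?_⟩
    · rw [← hcast]
      exact h
    · rw [← hcast]
      exact h'
    · ext r j
      change riemann A _ _ - riemann A _ _ = ((A.om (Z' j) (Y r) - A.om (Z j) (Y' r) : ℚ) : ℂ)
      rw [riemann_rat, riemann_rat, Rat.cast_sub]
  · rintro ⟨N, N', h, h', rfl⟩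
    refine ⟨fun r => N (Sum.inl r), fun r => N' (Sum.inl r), fun j => N (Sum.inr j), fun j => N' (Sum.inr j), ?_, ?_, ?_⟩
    · rw [rel_iff, hcast]
      refine (congrArg (Pool.Agent.X306.AV.RelN A u q) ?_).mp h
      funext s a
      rcases s with s | s <;> rfl
    · rw [rel_iff, hcast]
      refine (congrArg (Pool.Agent.X306.AV.RelN A u q) ?_).mp h'
      funext s a
      rcases s with s | s <;> rfl
    · ext r j
      change ((A.om (N' (Sum.inr j)) (N (Sum.inl r)) - A.om (N (Sum.inr j)) (N' (Sum.inl r)) : ℚ) : ℂ) =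
        riemann A _ _ - riemann A _ _
      rw [riemann_rat, riemann_rat, Rat.cast_sub]

theorem PA_eq : abelianPeriods A = Pool.Agent.X306.AV.PA A := by
  ext i j
  change Sum.elim (fun k => A.lam i k) (fun k => A.η i k) (split g j) = A.dR (split g j) (A.bas i)
  rcases split g j with k | k
  · change A.lam i k = A.per (A.bas i) k
    rw [A.per_bas]
  · change A.η i k = A.eta (A.bas i) k
    rw [A.eta_bas]

theorem coordinates_eq (u e : R → Fin g → ℂ) (q f : J → Fin g → ℂ) :
    Sum.elim (coordinates A u e) (coordinates A q f) = Pool.Agent.X306.AV.Nm A u e q f := by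
  funext s
  rcases s with r | j
  · change (fun j => Sum.elim (u r) (e r) (split g j)) ᵥ* (abelianPeriods A)⁻¹ = _
    rw [PA_eq]
    rfl
  · change (fun i => Sum.elim (q j) (f j) (split g i)) ᵥ* (abelianPeriods A)⁻¹ = _
    rw [PA_eq]
    rfl

theorem logarithm_eq (u e : R → Fin g → ℂ) (q f : J → Fin g → ℂ) (L : Matrix R J ℂ) :
    logarithm u e q f L = Pool.Agent.X306.AV.ell A u e q f L := by
  have h1 : (2 * Real.pi * Complex.I : ℂ) • (Pool.Agent.X306.AV.yM (Pool.Agent.X306.AV.Nm A u e q f) *
      Pool.Agent.X306.AV.tz A (Pool.Agent.X306.AV.zM (Pool.Agent.X306.AV.Nm A u e q f))) =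
      (Matrix.of fun r s => Pool.Agent.X306.AV.UU (u r) (e r) ((Pool.Agent.X306.AV.eqv g).symm s)) *
        Pool.Agent.X306.AV.sw
          (Matrix.of fun j s => Pool.Agent.X306.AV.UU (q j) (f j) ((Pool.Agent.X306.AV.eqv g).symm s)) := by
    rw [← Pool.Agent.X306.AV.yM_PA (A := A) (q := q) (f := f), ← Pool.Agent.X306.AV.zM_PA (A := A) (u := u) (e := e),
      Matrix.mul_assoc, Pool.Agent.X306.AV.PA_sw, Matrix.mul_smul]
  ext r j
  have h2 := congrFun (congrFun h1 r) j
  rw [Matrix.smul_apply, smul_eq_mul, Matrix.mul_apply (M := Matrix.of fun r s => Pool.Agent.X306.AV.UU (u r) (e r)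
    ((Pool.Agent.X306.AV.eqv g).symm s)), Pool.Agent.X306.AV.sum_eqv] at h2
  have h3 : ∑ k, (f j k * u r k - e r k * q j k) = ∑ k, (Matrix.of fun r s => Pool.Agent.X306.AV.UU (u r) (e r)
      ((Pool.Agent.X306.AV.eqv g).symm s)) r (Pool.Agent.X306.AV.eqv g (Sum.inl k)) * Pool.Agent.X306.AV.sw
      (Matrix.of fun j s => Pool.Agent.X306.AV.UU (q j) (f j) ((Pool.Agent.X306.AV.eqv g).symm s))
        (Pool.Agent.X306.AV.eqv g (Sum.inl k)) j + ∑ k, (Matrix.of fun r s => Pool.Agent.X306.AV.UU (u r) (e r)
      ((Pool.Agent.X306.AV.eqv g).symm s)) r (Pool.Agent.X306.AV.eqv g (Sum.inr k)) * Pool.Agent.X306.AV.sw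
      (Matrix.of fun j s => Pool.Agent.X306.AV.UU (q j) (f j) ((Pool.Agent.X306.AV.eqv g).symm s))
        (Pool.Agent.X306.AV.eqv g (Sum.inr k)) j := by
    rw [← Finset.sum_add_distrib]
    refine Finset.sum_congr rfl fun k _ => ?_
    simp only [Pool.Agent.X306.AV.sw, Matrix.of_apply, Equiv.symm_apply_apply, Sum.elim_inl, Sum.elim_inr,
      Pool.Agent.X306.AV.UU]
    ring
  change L r j - (1 / 2) * ∑ k, (f j k * u r k - e r k * q j k) = L r j - ((2 * Real.pi * Complex.I) / 2) * _
  rw [h3, ← h2]
  ring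

/-- **1-motives whose abelian part has maximal real multiplication.** `A` is an abelian variety over the algebraic numbers, defined
over the number field `F` together with its endomorphisms, with maximal real multiplication; the `u r` and `q j` are logarithms
of arbitrary points `P_r`, `Q_j` of `A(F)`, the vectors `(u r, e r)` and `(q j, f j)` are normalised: they satisfy the relations of
the points. Let `T` be a subtorsor over the algebraic numbers which contains the period matrix and whose group is defined over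
`ℚ`. -/
theorem result (A : AbVar g) (hA : MaximalRM A) (hCM : OnlyTrivialRelations A ∨ ImaginaryQuadraticCM A)
    (F : IntermediateField ℚ ℂ) (hF : DefinedOver A F) (u e : R → Fin g → ℂ)
    (hu : ∀ r, u r ∈ points A F) (q f : J → Fin g → ℂ) (hq : ∀ j, q j ∈ points A F)
    (hn : IsRelated A u q (coordinates A u e) (coordinates A q f)) (L : Matrix R J ℂ)
    (T : Set (Matrix (Idx g R J) (Idx g R J) ℂ)) (hT : IsTorsor T) (hG : GroupOverQ T)
    (hc : periodMatrix A u e q f L ∈ T) :
    -- 1: arbitrary `L`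
    (∀ W ∈ motivicLie A u q {s | IsCentral A u q s.1 ∧
        IsAlgebraic ℚ (pairing s.1 (logarithm u e q f L) - (s.2 : ℂ) * (2 * Real.pi * Complex.I))},
      ∀ x ∈ T, NormedSpace.exp W * x ∈ T) ∧
    -- 2: the 1-motives over the algebraic numbers
    ((∀ χ, IsCentral A u q χ → IsAlgebraic ℚ (Complex.exp (pairing χ (logarithm u e q f L)))) →
      ∀ W ∈ motivicLie A u q {s | IsCentral A u q s.1 ∧
        pairing s.1 (logarithm u e q f L) = (s.2 : ℂ) * (2 * Real.pi * Complex.I)},
      ∀ x ∈ T, NormedSpace.exp W * x ∈ T) := by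
  have hT' : Pool.Agent.TH127.PT.IsSubtorsor Pool.Agent.W245.EB.QB T := by
    obtain ⟨h1, I, h2, h3⟩ := hT
    exact ⟨fun x hx => ((h3 x).1 hx).1, h1, I, fun p hp m => Pool.Agent.W245.EB.mem_QB.2 (h2 p hp m), h3⟩
  have hG' : Pool.Agent.X306.RL.GDef Pool.Agent.X306.EM.QQ T := by
    obtain ⟨I, hI1, hI2⟩ := hG
    exact ⟨I, fun p hp m => by
      obtain ⟨q, hq⟩ := hI1 p hp m
      exact Pool.Agent.X306.EM.mem_QQ.2 ⟨q, hq.symm⟩, hI2⟩
  have hblock : ∀ X z μ Y w κ, block (g := g) (R := R) (J := J) X z μ Y w κ =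
      Pool.Agent.X306.AV.sm (X, z, μ, Y, w) κ := fun X z μ Y w κ => rfl
  have hthird : thirdPeriods A q f = Pool.Agent.X306.AV.PA A * Pool.Agent.X306.AV.sw
      (Matrix.of fun j s => Pool.Agent.X306.AV.UU (q j) (f j) ((Pool.Agent.X306.AV.eqv g).symm s)) := by
    ext i j
    rw [Matrix.mul_apply, Pool.Agent.X306.AV.sum_eqv]
    change ∑ k, (f j k * A.lam i k - A.η i k * q j k) =
      ∑ k, Pool.Agent.X306.AV.PA A i (Pool.Agent.X306.AV.eqv g (Sum.inl k)) * Sum.elim
        (fun k => Pool.Agent.X306.AV.UU (q j) (f j) ((Pool.Agent.X306.AV.eqv g).symm (Pool.Agent.X306.AV.eqv g (Sum.inr k))))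
        (fun k => -Pool.Agent.X306.AV.UU (q j) (f j) ((Pool.Agent.X306.AV.eqv g).symm (Pool.Agent.X306.AV.eqv g (Sum.inl k))))
        ((Pool.Agent.X306.AV.eqv g).symm (Pool.Agent.X306.AV.eqv g (Sum.inl k))) +
      ∑ k, Pool.Agent.X306.AV.PA A i (Pool.Agent.X306.AV.eqv g (Sum.inr k)) * Sum.elim
        (fun k => Pool.Agent.X306.AV.UU (q j) (f j) ((Pool.Agent.X306.AV.eqv g).symm (Pool.Agent.X306.AV.eqv g (Sum.inr k))))
        (fun k => -Pool.Agent.X306.AV.UU (q j) (f j) ((Pool.Agent.X306.AV.eqv g).symm (Pool.Agent.X306.AV.eqv g (Sum.inl k))))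
        ((Pool.Agent.X306.AV.eqv g).symm (Pool.Agent.X306.AV.eqv g (Sum.inr k)))
    simp only [Equiv.symm_apply_apply, Sum.elim_inl, Sum.elim_inr, Pool.Agent.X306.AV.PA_inl,
      Pool.Agent.X306.AV.PA_inr, A.per_bas, A.eta_bas, Pool.Agent.X306.AV.UU]
    rw [← Finset.sum_add_distrib]
    refine Finset.sum_congr rfl fun k _ => ?_
    ring
  have hpm : periodMatrix A u e q f L = Pool.Agent.X306.AV.sm (Pool.Agent.X306.AV.prS u e q f L A) 1 := by
    unfold periodMatrix
    rw [hblock, PA_eq, hthird]
    rfl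
  rw [hpm] at hc
  have hn' : Pool.Agent.X306.AV.RelN A u q (Pool.Agent.X306.AV.Nm A u e q f) := by
    rw [← coordinates_eq]
    exact (rel_iff A u q _ _).1 hn
  have hE : Pool.Agent.X306.AV.EndAlg A := by
    rintro m ⟨Q, hQ⟩
    obtain ⟨b, hb, h1⟩ := hF.deRham Q m hQ
    rw [PA_eq] at h1
    exact ⟨b, hb, h1⟩
  -- the endomorphisms
  have hper : ∀ w : Fin (2 * g) → ℚ, ∑ j, (w j : ℂ) • A.lam j = A.per w := fun w => (Pool.Agent.X306.AV.per_eq w).symm
  have hEA : ∀ P : Module.End ℚ (Fin (2 * g) → ℚ), IsEndo A P ↔ P ∈ A.EA := by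
    intro P
    constructor
    · rintro ⟨M, hM⟩
      exact Pool.Agent.X306.AV.EA_of_hodge hT' hG' hc hE hn' ⟨M, fun w => by
        rw [← hper, ← hper]
        exact hM w⟩
    · intro hP
      obtain ⟨M, hM⟩ := A.hodge_end (A.mem_EA.1 hP)
      exact ⟨M, fun w => by
        rw [hper, hper]
        exact hM w⟩
  have hsym : ∀ P : Module.End ℚ (Fin (2 * g) → ℚ), (∀ v w, ratRiemann A (P v) w = ratRiemann A v (P w)) →
      ∀ v w, A.om (P v) w = A.om v (P w) := by
    intro P h v w
    have h1 := h v w
    unfold ratRiemann at h1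
    rw [riemann_rat, riemann_rat] at h1
    exact_mod_cast h1
  have hcs : ∀ X : Module.End ℚ (Fin (2 * g) → ℚ), CentralSkew A X ↔ X ∈ A.ZA := by
    intro X
    constructor
    · rintro ⟨h1, h2, h3⟩
      refine ⟨(hEA X).1 h1, fun v w => ?_, fun Q hQ => h2 Q ((hEA Q).2 hQ)⟩
      have h4 := h3 v w
      unfold ratRiemann at h4
      rw [riemann_rat, riemann_rat] at h4
      have h5 : A.om (X v) w = -A.om v (X w) := by exact_mod_cast h4
      linear_combination h5
    · rintro ⟨h1, h2, h3⟩
      refine ⟨(hEA X).2 h1, fun Q hQ => h3 Q ((hEA Q).1 hQ), fun v w => ?_⟩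
      unfold ratRiemann
      rw [riemann_rat, riemann_rat]
      have h5 : A.om (X v) w = -A.om v (X w) := by linear_combination h2 v w
      exact_mod_cast h5
  have hMany : Pool.Agent.X306.AV.Many A := by
    obtain ⟨P, hP, hcomm, hs, hli⟩ := hA
    obtain ⟨e', he', -⟩ := AbVar.exists_adapted A.endAlg P (fun i => (hEA _).1 (hP i)) hcomm (fun i => hsym _ (hs i)) hli
    refine ⟨⟨e', he'⟩, fun X hX hgen => ?_⟩
    rcases hCM with hrel | ⟨r, R, d, hd, hR, hspan⟩
    · exact oddRel_of_finsupp (hrel X ((hcs X).2 hX) fun t ht R hR => hgen t ht R ((hcs R).1 hR))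
    · exact oddRel_of_quadratic R d (fun j => (hd j).1) (fun j => (hd j).2) (fun i j h => (hR i j h).1)
        (fun i j h => (hR i j h).2) (hspan X ((hcs X).2 hX))
  have main : ∀ W ∈ motivicLie A u q {s | IsCentral A u q s.1 ∧
        IsAlgebraic ℚ (pairing s.1 (logarithm u e q f L) - (s.2 : ℂ) * (2 * Real.pi * Complex.I))},
      ∀ x ∈ T, NormedSpace.exp W * x ∈ T := by
    rintro _ ⟨X, Z, μ, Y, w, hXm, hX, hYZ, hw, rfl⟩ x hx
    have hX' : ∀ a b, ∑ c, X a c * ((A.om (A.bas c) (A.bas b) : ℚ) : ℂ) +
        ∑ c, X b c * ((A.om (A.bas a) (A.bas c) : ℚ) : ℂ) = μ * ((A.om (A.bas a) (A.bas b) : ℚ) : ℂ) := by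
      intro a b
      have h1 : ∀ (v : Fin (2 * g) → ℂ) (b : Fin (2 * g)), riemann A v (Pi.single b 1) =
          ∑ c, v c * ((A.om (A.bas c) (A.bas b) : ℚ) : ℂ) := by
        intro v b
        refine Finset.sum_congr rfl fun c _ => ?_
        rw [Finset.sum_eq_single b]
        · rw [Pi.single_eq_same, mul_one, entry_eq]
        · intro b' _ hb'
          rw [Pi.single_eq_of_ne hb', mul_zero, zero_mul]
        · intro h
          exact absurd (Finset.mem_univ _) h
      have h2 : ∀ (v : Fin (2 * g) → ℂ) (a : Fin (2 * g)), riemann A (Pi.single a 1) v =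
          ∑ c, v c * ((A.om (A.bas a) (A.bas c) : ℚ) : ℂ) := by
        intro v a
        unfold riemann
        rw [Finset.sum_eq_single a]
        · refine Finset.sum_congr rfl fun c _ => ?_
          rw [Pi.single_eq_same, one_mul, entry_eq]
        · intro b' _ hb'
          refine Finset.sum_eq_zero fun c _ => ?_
          rw [Pi.single_eq_of_ne hb', zero_mul, zero_mul]
        · intro h
          exact absurd (Finset.mem_univ _) h
      have h3 := hX (Pi.single a 1) (Pi.single b 1)
      rw [Matrix.single_one_vecMul, Matrix.single_one_vecMul, h1, h2, h1] at h3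
      have h4 : ∑ c, (Pi.single a 1 : Fin (2 * g) → ℂ) c * ((A.om (A.bas c) (A.bas b) : ℚ) : ℂ) =
          ((A.om (A.bas a) (A.bas b) : ℚ) : ℂ) := by
        rw [Finset.sum_eq_single a]
        · rw [Pi.single_eq_same, one_mul]
        · intro b' _ hb'
          rw [Pi.single_eq_of_ne hb', zero_mul]
        · intro h
          exact absurd (Finset.mem_univ _) h
      rw [h4] at h3
      exact h3
    have h1 := Pool.Agent.X306.AV.mainT hT' hG' hc ⟨hF.numberField, hF.differentials, hF.add, hF.endo⟩ hu hq hE hn' hMany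
      hX' (fun m hm => by
        obtain ⟨Q, hQ⟩ := hm
        exact hXm Q m hQ) ((rel_iff A u q Y Z).1 hYZ) (w := w) (fun χ h1 n h2 => by
        refine hw (χ, n) ⟨fun c hc' => h1 c (by rwa [commutators_eq] at hc'), ?_⟩
        rw [logarithm_eq A]
        exact h2) hx
    rw [hblock, columns_eq]
    exact h1
  refine ⟨main, ?_⟩
  rintro halg _ ⟨X, Z, μ, Y, w, hXm, hX, hYZ, hw, rfl⟩ x hx
  refine main _ ⟨X, Z, μ, Y, w, hXm, hX, hYZ, fun s hs => hw s ⟨hs.1, ?_⟩, rfl⟩ x hx
  have h1 : Complex.exp (pairing s.1 (logarithm u e q f L) - (s.2 : ℂ) * (2 * Real.pi * Complex.I)) =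
      Complex.exp (pairing s.1 (logarithm u e q f L)) := by
    rw [Complex.exp_sub, Complex.exp_int_mul_two_pi_mul_I, div_one]
  by_contra hne
  refine Pool.Agent.H340R2.LW.transcendental_cexp _ hs.2 (sub_ne_zero.2 hne) ?_
  rw [h1]
  exact halg s.1 hs.1

end Pool.Agent.Results.MP_5d33ca_ag.RealMultOneMotives
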